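import Pool.Agent.R109.OC.Defs

/-! # Faces near a crossing point surrounded by a small circle -/

set_option autoImplicit false

namespace Pool.Agent.R109.OC.A

open Pool.Agent.R109.OC Set Filter Topology

/-- the chart -/
noncomputable def ph (p q v z : ℂ) : ℂ := v * (z - p) / (z - q)

/-- the inverse of the chart -/
noncomputable def ps (p q v w : ℂ) : ℂ := (v * p - w * q) / (v - w)

theorem ps_sub_p {p q v w : ℂ} (h : v - w ≠ 0) : ps p q v w - p = w * (p - q) / (v - w) := by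
  unfold ps; field_simp; ring

theorem ps_sub_q {p q v w : ℂ} (h : v - w ≠ 0) : ps p q v w - q = v * (p - q) / (v - w) := by
  unfold ps; field_simp; ring

theorem vw_ne {v w : ℂ} (h : ‖w‖ < ‖v‖) : v - w ≠ 0 := by
  intro h0
  rw [sub_eq_zero] at h0
  rw [h0] at h
  exact lt_irrefl _ h

section

variable {p q v : ℂ} (hpq : p ≠ q)

include hpq

theorem ps_ne_q {w : ℂ} (h : ‖w‖ < ‖v‖) : ps p q v w ≠ q := by
  have hv : v ≠ 0 := by
    intro h0; rw [h0, norm_zero] at h; exact absurd h (not_lt.2 (norm_nonneg w))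
  intro h0
  have h1 := ps_sub_q (p := p) (q := q) (vw_ne h)
  rw [h0, sub_self] at h1
  have h2 : v * (p - q) / (v - w) ≠ 0 :=
    div_ne_zero (mul_ne_zero hv (sub_ne_zero.2 hpq)) (vw_ne h)
  exact h2 h1.symm

theorem ph_ps {w : ℂ} (h : ‖w‖ < ‖v‖) : ph p q v (ps p q v w) = w := by
  have hv : v ≠ 0 := by
    intro h0; rw [h0, norm_zero] at h; exact absurd h (not_lt.2 (norm_nonneg w))
  have h1 := vw_ne h
  have h2 : p - q ≠ 0 := sub_ne_zero.2 hpq
  unfold ph
  rw [ps_sub_p h1, ps_sub_q h1]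
  field_simp

theorem ps_ph {z : ℂ} (hv : v ≠ 0) (hz : z ≠ q) : ps p q v (ph p q v z) = z := by
  have h1 : z - q ≠ 0 := sub_ne_zero.2 hz
  have h2 : p - q ≠ 0 := sub_ne_zero.2 hpq
  have h3 : v - ph p q v z = v * (p - q) / (z - q) := by
    unfold ph; field_simp; ring
  have h4 : v * p - ph p q v z * q = v * (p - q) * z / (z - q) := by
    unfold ph; field_simp; ring
  unfold ps
  rw [h3, h4]
  field_simp

theorem norm_ps {w : ℂ} (h : ‖w‖ < ‖v‖) :
    ‖v‖ * ‖ps p q v w - p‖ = ‖w‖ * ‖ps p q v w - q‖ := by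
  have h1 := vw_ne h
  rw [ps_sub_p h1, ps_sub_q h1, norm_div, norm_div, norm_mul, norm_mul]
  ring

theorem norm_ps_q_pos {w : ℂ} (h : ‖w‖ < ‖v‖) : 0 < ‖ps p q v w - q‖ :=
  norm_pos_iff.2 (sub_ne_zero.2 (ps_ne_q hpq h))

theorem ps_cont : ContinuousOn (ps p q v) (Metric.ball 0 ‖v‖) := by
  intro w hw
  have hw' : ‖w‖ < ‖v‖ := by simpa using hw
  have h1 := vw_ne hw'
  unfold ps
  apply ContinuousAt.continuousWithinAt
  fun_prop (disch := assumption)

theorem ps_inj : InjOn (ps p q v) (Metric.ball 0 ‖v‖) := by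
  intro w hw w' hw' h
  have h1 : ‖w‖ < ‖v‖ := by simpa using hw
  have h2 : ‖w'‖ < ‖v‖ := by simpa using hw'
  rw [← ph_ps hpq h1, ← ph_ps hpq h2, h]

theorem ps_open {O : Set ℂ} (hO : IsOpen O) (hOv : O ⊆ Metric.ball 0 ‖v‖) :
    IsOpen (ps p q v '' O) := by
  by_cases hv : v = 0
  · have : O = ∅ := by
      rw [← subset_empty_iff]
      refine hOv.trans ?_
      rw [hv, norm_zero, Metric.ball_zero]
    rw [this, image_empty]
    exact isOpen_empty
  have e : ps p q v '' O = {z | z ≠ q} ∩ ph p q v ⁻¹' O := by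
    ext z
    constructor
    · rintro ⟨w, hw, rfl⟩
      have h1 : ‖w‖ < ‖v‖ := by simpa using hOv hw
      refine ⟨ps_ne_q hpq h1, ?_⟩
      rw [mem_preimage, ph_ps hpq h1]
      exact hw
    · rintro ⟨hz, hz2⟩
      exact ⟨ph p q v z, hz2, ps_ph hpq hv hz⟩
  rw [e]
  refine ContinuousOn.isOpen_inter_preimage ?_ isOpen_ne hO
  intro z hz
  have h1 : z - q ≠ 0 := sub_ne_zero.2 hz
  unfold ph
  apply ContinuousAt.continuousWithinAt
  fun_prop (disch := assumption)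

theorem closure_ps {O C : Set ℂ} (hOC : O ⊆ C) (hC : IsCompact C)
    (hCv : C ⊆ Metric.ball 0 ‖v‖) : closure (ps p q v '' O) ⊆ ps p q v '' C :=
  closure_minimal (image_mono hOC) (hC.image_of_continuousOn ((ps_cont hpq).mono hCv)).isClosed

theorem ps_closure {O : Set ℂ} (hCv : closure O ⊆ Metric.ball 0 ‖v‖) :
    ps p q v '' closure O ⊆ closure (ps p q v '' O) :=
  ContinuousOn.image_closure ((ps_cont hpq).mono hCv)

/-- the component lemma -/
theorem comp {W e O C : Set ℂ} (he : IsPreconnected e) (heW : ps p q v '' e ⊆ W) (heO : e ⊆ O)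
    (hO : IsOpen O) (hOC : O ⊆ C) (hC : IsCompact C) (hCv : C ⊆ Metric.ball 0 ‖v‖)
    (h : ps p q v '' C ∩ W ⊆ ps p q v '' e) {z : ℂ} (hz : z ∈ ps p q v '' e) :
    connectedComponentIn W z = ps p q v '' e := by
  have hu : IsOpen (ps p q v '' O) := ps_open hpq hO (hOC.trans hCv)
  have hpre : IsPreconnected (ps p q v '' e) :=
    he.image _ ((ps_cont hpq).mono ((heO.trans hOC).trans hCv))
  refine Subset.antisymm ?_ (hpre.subset_connectedComponentIn hz heW)
  have hT : connectedComponentIn W z ⊆ ps p q v '' O := by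
    refine isPreconnected_connectedComponentIn.subset_of_closure_inter_subset hu
      ⟨z, mem_connectedComponentIn (heW hz), image_mono heO hz⟩ ?_
    intro x hx
    have h1 := closure_ps hpq hOC hC hCv hx.1
    exact image_mono heO (h ⟨h1, connectedComponentIn_subset _ _ hx.2⟩)
  intro x hx
  exact h ⟨image_mono hOC (hT hx), connectedComponentIn_subset _ _ hx⟩

end

/-! ### the model -/

/-- open quarter disc -/
def Q (ε a b : ℝ) : Set ℂ := {w | 0 < a * w.re ∧ 0 < b * w.im ∧ ‖w‖ < ε}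
/-- closed quarter disc -/
def Qc (ε a b : ℝ) : Set ℂ := {w | 0 ≤ a * w.re ∧ 0 ≤ b * w.im ∧ ‖w‖ ≤ ε}
def e1 (ε a : ℝ) : Set ℂ := {w | w.im = 0 ∧ 0 < a * w.re ∧ ‖w‖ < ε}
def c1 (ε a : ℝ) : Set ℂ := {w | w.im = 0 ∧ 0 ≤ a * w.re ∧ ‖w‖ ≤ ε}
def e2 (ε b : ℝ) : Set ℂ := {w | w.re = 0 ∧ 0 < b * w.im ∧ ‖w‖ < ε}
def c2 (ε b : ℝ) : Set ℂ := {w | w.re = 0 ∧ 0 ≤ b * w.im ∧ ‖w‖ ≤ ε}
def e3 (ε a b : ℝ) : Set ℂ := {w | 0 < a * w.re ∧ 0 < b * w.im ∧ ‖w‖ = ε}
def c3 (ε a b : ℝ) : Set ℂ := {w | 0 ≤ a * w.re ∧ 0 ≤ b * w.im ∧ ‖w‖ = ε}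
/-- the union of the circles in the chart -/
def M (ε : ℝ) : Set ℂ := {w | w.im = 0 ∨ w.re = 0 ∨ ‖w‖ = ε}
/-- the crossing points in the chart -/
def X (ε : ℝ) : Set ℂ :=
  {w | (w.im = 0 ∧ w.re = 0) ∨ (w.im = 0 ∧ ‖w‖ = ε) ∨ (w.re = 0 ∧ ‖w‖ = ε)}

theorem nsq (w : ℂ) : ‖w‖ ^ 2 = w.re ^ 2 + w.im ^ 2 := by
  rw [← Complex.normSq_eq_norm_sq, Complex.normSq_apply]; ring

theorem nle {w : ℂ} {ε : ℝ} (hε : 0 ≤ ε) : ‖w‖ ≤ ε ↔ w.re ^ 2 + w.im ^ 2 ≤ ε ^ 2 := by
  rw [← nsq, sq_le_sq₀ (norm_nonneg _) hε]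

theorem nlt {w : ℂ} {ε : ℝ} (hε : 0 ≤ ε) : ‖w‖ < ε ↔ w.re ^ 2 + w.im ^ 2 < ε ^ 2 := by
  rw [← nsq, sq_lt_sq₀ (norm_nonneg _) hε]

theorem neq {w : ℂ} {ε : ℝ} (hε : 0 ≤ ε) : ‖w‖ = ε ↔ w.re ^ 2 + w.im ^ 2 = ε ^ 2 := by
  rw [← nsq]
  constructor
  · intro h; rw [h]
  · intro h; exact (sq_eq_sq₀ (norm_nonneg _) hε).1 h

theorem clos_of {w w0 : ℂ} {S : Set ℂ}
    (h : ∀ s : ℝ, 0 < s → s ≤ 1 → (1 - s) • w + s • w0 ∈ S) : w ∈ closure S := by
  have hc : Continuous (fun s : ℝ => (1 - s) • w + s • w0) := by fun_prop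
  have ht : Tendsto (fun s : ℝ => (1 - s) • w + s • w0) (𝓝[>] 0) (𝓝 w) := by
    have h1 := hc.tendsto 0
    simp only [sub_zero, one_smul, zero_smul, add_zero] at h1
    exact h1.mono_left nhdsWithin_le_nhds
  refine mem_closure_of_tendsto ht ?_
  filter_upwards [Ioc_mem_nhdsGT (zero_lt_one' ℝ)] with s hs
  exact h s hs.1 hs.2

section model

variable {ε a b : ℝ} (hε : 0 < ε) (ha : a ^ 2 = 1) (hb : b ^ 2 = 1)

include hε in
theorem Q_open : IsOpen (Q ε a b) := by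
  have h1 : IsOpen {w : ℂ | 0 < a * w.re} := isOpen_lt continuous_const (by fun_prop)
  have h2 : IsOpen {w : ℂ | 0 < b * w.im} := isOpen_lt continuous_const (by fun_prop)
  have h3 : IsOpen {w : ℂ | ‖w‖ < ε} := isOpen_lt (by fun_prop) continuous_const
  exact h1.inter (h2.inter h3)

theorem Qc_comp : IsCompact (Qc ε a b) := by
  have h1 : IsClosed {w : ℂ | 0 ≤ a * w.re} := isClosed_le continuous_const (by fun_prop)
  have h2 : IsClosed {w : ℂ | 0 ≤ b * w.im} := isClosed_le continuous_const (by fun_prop)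
  have h3 : IsClosed {w : ℂ | ‖w‖ ≤ ε} := isClosed_le (by fun_prop) continuous_const
  refine (isCompact_closedBall (0 : ℂ) ε).of_isClosed_subset (h1.inter (h2.inter h3)) ?_
  intro w hw
  simpa using hw.2.2

theorem Q_conv : Convex ℝ (Q ε a b) := by
  intro x hx y hy s t hs ht hst
  refine ⟨?_, ?_, ?_⟩
  · simp only [Complex.add_re, Complex.real_smul, Complex.mul_re, Complex.ofReal_re,
      Complex.ofReal_im, zero_mul, sub_zero]
    rcases eq_or_lt_of_le hs with h | h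
    · have : t = 1 := by linarith
      rw [← h, this]; simpa using hy.1
    · have h1 := mul_pos h hx.1
      have h2 := mul_nonneg ht hy.1.le
      nlinarith
  · simp only [Complex.add_im, Complex.real_smul, Complex.mul_im, Complex.ofReal_re,
      Complex.ofReal_im, zero_mul, add_zero]
    rcases eq_or_lt_of_le hs with h | h
    · have : t = 1 := by linarith
      rw [← h, this]; simpa using hy.2.1
    · have h1 := mul_pos h hx.2.1
      have h2 := mul_nonneg ht hy.2.1.le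
      nlinarith
  · have h1 := (convex_ball (0 : ℂ) ε) (x := x) (y := y) (by simpa using hx.2.2)
      (by simpa using hy.2.2) hs ht hst
    simpa using h1

theorem e1_conv : Convex ℝ (e1 ε a) := by
  intro x hx y hy s t hs ht hst
  refine ⟨?_, ?_, ?_⟩
  · simp [hx.1, hy.1]
  · simp only [Complex.add_re, Complex.real_smul, Complex.mul_re, Complex.ofReal_re,
      Complex.ofReal_im, zero_mul, sub_zero]
    rcases eq_or_lt_of_le hs with h | h
    · have : t = 1 := by linarith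
      rw [← h, this]; simpa using hy.2.1
    · have h1 := mul_pos h hx.2.1
      have h2 := mul_nonneg ht hy.2.1.le
      nlinarith
  · have h1 := (convex_ball (0 : ℂ) ε) (x := x) (y := y) (by simpa using hx.2.2)
      (by simpa using hy.2.2) hs ht hst
    simpa using h1

theorem e2_conv : Convex ℝ (e2 ε b) := by
  intro x hx y hy s t hs ht hst
  refine ⟨?_, ?_, ?_⟩
  · simp [hx.1, hy.1]
  · simp only [Complex.add_im, Complex.real_smul, Complex.mul_im, Complex.ofReal_re,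
      Complex.ofReal_im, zero_mul, add_zero]
    rcases eq_or_lt_of_le hs with h | h
    · have : t = 1 := by linarith
      rw [← h, this]; simpa using hy.2.1
    · have h1 := mul_pos h hx.2.1
      have h2 := mul_nonneg ht hy.2.1.le
      nlinarith
  · have h1 := (convex_ball (0 : ℂ) ε) (x := x) (y := y) (by simpa using hx.2.2)
      (by simpa using hy.2.2) hs ht hst
    simpa using h1

include hε in
theorem e3_pre : IsPreconnected (e3 ε a b) := by
  have hq : Convex ℝ {w : ℂ | 0 < a * w.re ∧ 0 < b * w.im} := by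
    intro x hx y hy s t hs ht hst
    refine ⟨?_, ?_⟩
    · simp only [Complex.add_re, Complex.real_smul, Complex.mul_re, Complex.ofReal_re,
        Complex.ofReal_im, zero_mul, sub_zero]
      rcases eq_or_lt_of_le hs with h | h
      · have : t = 1 := by linarith
        rw [← h, this]; simpa using hy.1
      · have h1 := mul_pos h hx.1
        have h2 := mul_nonneg ht hy.1.le
        nlinarith
    · simp only [Complex.add_im, Complex.real_smul, Complex.mul_im, Complex.ofReal_re,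
        Complex.ofReal_im, zero_mul, add_zero]
      rcases eq_or_lt_of_le hs with h | h
      · have : t = 1 := by linarith
        rw [← h, this]; simpa using hy.2
      · have h1 := mul_pos h hx.2
        have h2 := mul_nonneg ht hy.2.le
        nlinarith
  have hne : ∀ w : ℂ, 0 < a * w.re → w ≠ 0 := by
    intro w hw h0
    rw [h0, Complex.zero_re, mul_zero] at hw
    exact lt_irrefl _ hw
  have e : e3 ε a b = (fun w : ℂ => (ε / ‖w‖) • w) '' {w : ℂ | 0 < a * w.re ∧ 0 < b * w.im} := by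
    ext w
    constructor
    · intro hw
      refine ⟨w, ⟨hw.1, hw.2.1⟩, ?_⟩
      simp only
      rw [hw.2.2, div_self hε.ne', one_smul]
    · rintro ⟨x, hx, rfl⟩
      have hx0 : 0 < ‖x‖ := norm_pos_iff.2 (hne x hx.1)
      have h1 : 0 < ε / ‖x‖ := div_pos hε hx0
      refine ⟨?_, ?_, ?_⟩
      · simp only [Complex.real_smul, Complex.mul_re, Complex.ofReal_re, Complex.ofReal_im,
          zero_mul, sub_zero]
        have := mul_pos h1 hx.1
        nlinarith
      · simp only [Complex.real_smul, Complex.mul_im, Complex.ofReal_re, Complex.ofReal_im,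
          zero_mul, add_zero]
        have := mul_pos h1 hx.2
        nlinarith
      · simp only
        rw [norm_smul, Real.norm_of_nonneg h1.le]
        field_simp
  rw [e]
  refine hq.isPreconnected.image _ ?_
  intro w hw
  have h1 : ‖w‖ ≠ 0 := norm_ne_zero_iff.2 (hne w hw.1)
  apply ContinuousAt.continuousWithinAt
  fun_prop (disch := assumption)

/-- the isolating discs -/
def O1 (ε a : ℝ) : Set ℂ := {w | w.re ^ 2 + w.im ^ 2 < ε * (a * w.re)}
def C1 (ε a : ℝ) : Set ℂ := {w | w.re ^ 2 + w.im ^ 2 ≤ ε * (a * w.re)}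
def O2 (ε b : ℝ) : Set ℂ := {w | w.re ^ 2 + w.im ^ 2 < ε * (b * w.im)}
def C2 (ε b : ℝ) : Set ℂ := {w | w.re ^ 2 + w.im ^ 2 ≤ ε * (b * w.im)}
def O3 (ε a b : ℝ) : Set ℂ := {w | w.re ^ 2 + w.im ^ 2 + ε ^ 2 < 2 * ε * (a * w.re + b * w.im)}
def C3 (ε a b : ℝ) : Set ℂ := {w | w.re ^ 2 + w.im ^ 2 + ε ^ 2 ≤ 2 * ε * (a * w.re + b * w.im)}

theorem O1_open : IsOpen (O1 ε a) := isOpen_lt (by fun_prop) (by fun_prop)
theorem O2_open : IsOpen (O2 ε b) := isOpen_lt (by fun_prop) (by fun_prop)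
theorem O3_open : IsOpen (O3 ε a b) := isOpen_lt (by fun_prop) (by fun_prop)

include hε ha in
theorem C1_le {w : ℂ} (h : w ∈ C1 ε a) : ‖w‖ ≤ 3 * ε := by
  rw [nle (by linarith)]
  have h1 : w.re ^ 2 + w.im ^ 2 ≤ ε * (a * w.re) := h
  nlinarith [sq_nonneg (a * w.re - ε), sq_nonneg w.im, sq_nonneg (a * w.re)]

include hε hb in
theorem C2_le {w : ℂ} (h : w ∈ C2 ε b) : ‖w‖ ≤ 3 * ε := by
  rw [nle (by linarith)]
  have h1 : w.re ^ 2 + w.im ^ 2 ≤ ε * (b * w.im) := h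
  nlinarith [sq_nonneg (b * w.im - ε), sq_nonneg w.re, sq_nonneg (b * w.im)]

include hε ha hb in
theorem C3_le {w : ℂ} (h : w ∈ C3 ε a b) : ‖w‖ ≤ 3 * ε := by
  rw [nle (by linarith)]
  have h1 : w.re ^ 2 + w.im ^ 2 + ε ^ 2 ≤ 2 * ε * (a * w.re + b * w.im) := h
  have hx : w.re ^ 2 = (a * w.re) ^ 2 := by rw [mul_pow, ha, one_mul]
  have hy : w.im ^ 2 = (b * w.im) ^ 2 := by rw [mul_pow, hb, one_mul]
  rw [hx, hy] at h1 ⊢
  set x := a * w.re
  set y := b * w.im
  -- (x-ε)^2 + (y-ε)^2 ≤ ε^2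
  nlinarith [sq_nonneg (x + y - 2 * ε), sq_nonneg (x - y), sq_nonneg (x + y - 3 * ε),
    sq_nonneg (x - 2 * ε), sq_nonneg (y - 2 * ε)]

theorem C1_comp (hε : 0 < ε) (ha : a ^ 2 = 1) : IsCompact (C1 ε a) := by
  refine (isCompact_closedBall (0 : ℂ) (3 * ε)).of_isClosed_subset
    (isClosed_le (by fun_prop) (by fun_prop)) ?_
  intro w hw
  simpa using C1_le hε ha hw

theorem C2_comp (hε : 0 < ε) (hb : b ^ 2 = 1) : IsCompact (C2 ε b) := by
  refine (isCompact_closedBall (0 : ℂ) (3 * ε)).of_isClosed_subset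
    (isClosed_le (by fun_prop) (by fun_prop)) ?_
  intro w hw
  simpa using C2_le hε hb hw

theorem C3_comp (hε : 0 < ε) (ha : a ^ 2 = 1) (hb : b ^ 2 = 1) : IsCompact (C3 ε a b) := by
  refine (isCompact_closedBall (0 : ℂ) (3 * ε)).of_isClosed_subset
    (isClosed_le (by fun_prop) (by fun_prop)) ?_
  intro w hw
  simpa using C3_le hε ha hb hw

include hε ha in
theorem C1_M {w : ℂ} (h : w ∈ C1 ε a) (hM : w ∈ M ε) (hX : w ∉ X ε) : w ∈ e1 ε a := by
  have h1 : w.re ^ 2 + w.im ^ 2 ≤ ε * (a * w.re) := h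
  have hx : w.re ^ 2 = (a * w.re) ^ 2 := by rw [mul_pow, ha, one_mul]
  rcases hM with h2 | h2 | h2
  · have h3 : w.re ≠ 0 := fun h0 => hX (Or.inl ⟨h2, h0⟩)
    have h4 : ‖w‖ ≠ ε := fun h0 => hX (Or.inr (Or.inl ⟨h2, h0⟩))
    have h5 : 0 < w.re ^ 2 := by positivity
    rw [h2] at h1
    have h6 : 0 < a * w.re := by
      by_contra hcon
      push Not at hcon
      nlinarith
    refine ⟨h2, h6, lt_of_le_of_ne ?_ h4⟩
    rw [nle hε.le, h2, hx]
    rw [hx] at h1
    nlinarith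
  · exfalso
    rw [h2] at h1
    have h3 : w.im = 0 := by nlinarith [sq_nonneg w.im]
    exact hX (Or.inl ⟨h3, h2⟩)
  · exfalso
    have h3 := (neq hε.le).1 h2
    rw [h3] at h1
    have h4 : ε ≤ a * w.re := by nlinarith
    have h5 : w.im = 0 := by
      rw [hx] at h3
      nlinarith [sq_nonneg w.im]
    exact hX (Or.inr (Or.inl ⟨h5, h2⟩))

include hε hb in
theorem C2_M {w : ℂ} (h : w ∈ C2 ε b) (hM : w ∈ M ε) (hX : w ∉ X ε) : w ∈ e2 ε b := by
  have h1 : w.re ^ 2 + w.im ^ 2 ≤ ε * (b * w.im) := h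
  have hx : w.im ^ 2 = (b * w.im) ^ 2 := by rw [mul_pow, hb, one_mul]
  rcases hM with h2 | h2 | h2
  · exfalso
    rw [h2] at h1
    have h3 : w.re = 0 := by nlinarith [sq_nonneg w.re]
    exact hX (Or.inl ⟨h2, h3⟩)
  · have h3 : w.im ≠ 0 := fun h0 => hX (Or.inl ⟨h0, h2⟩)
    have h4 : ‖w‖ ≠ ε := fun h0 => hX (Or.inr (Or.inr ⟨h2, h0⟩))
    have h5 : 0 < w.im ^ 2 := by positivity
    rw [h2] at h1
    have h6 : 0 < b * w.im := by
      by_contra hcon
      push Not at hcon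
      nlinarith
    refine ⟨h2, h6, lt_of_le_of_ne ?_ h4⟩
    rw [nle hε.le, h2, hx]
    rw [hx] at h1
    nlinarith
  · exfalso
    have h3 := (neq hε.le).1 h2
    rw [h3] at h1
    have h4 : ε ≤ b * w.im := by nlinarith
    have h5 : w.re = 0 := by
      rw [hx] at h3
      nlinarith [sq_nonneg w.re]
    exact hX (Or.inr (Or.inr ⟨h5, h2⟩))

include hε ha hb in
theorem C3_M {w : ℂ} (h : w ∈ C3 ε a b) (hM : w ∈ M ε) (hX : w ∉ X ε) : w ∈ e3 ε a b := by
  have h1 : w.re ^ 2 + w.im ^ 2 + ε ^ 2 ≤ 2 * ε * (a * w.re + b * w.im) := h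
  have hx : w.re ^ 2 = (a * w.re) ^ 2 := by rw [mul_pow, ha, one_mul]
  have hy : w.im ^ 2 = (b * w.im) ^ 2 := by rw [mul_pow, hb, one_mul]
  rcases hM with h2 | h2 | h2
  · exfalso
    rw [hx, h2] at h1
    have h3 : a * w.re = ε := by nlinarith [sq_nonneg (a * w.re - ε)]
    refine hX (Or.inr (Or.inl ⟨h2, ?_⟩))
    rw [neq hε.le, hx, h2, h3]
    ring
  · exfalso
    rw [hy, h2] at h1
    have h3 : b * w.im = ε := by nlinarith [sq_nonneg (b * w.im - ε)]
    refine hX (Or.inr (Or.inr ⟨h2, ?_⟩))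
    rw [neq hε.le, hy, h2, h3]
    ring
  · have h3 := (neq hε.le).1 h2
    have h4 : w.im ≠ 0 := fun h0 => hX (Or.inr (Or.inl ⟨h0, h2⟩))
    have h5 : w.re ≠ 0 := fun h0 => hX (Or.inr (Or.inr ⟨h0, h2⟩))
    rw [hx, hy] at h1 h3
    have h6 : 0 < (a * w.re) ^ 2 := by rw [← hx]; positivity
    have h7 : 0 < (b * w.im) ^ 2 := by rw [← hy]; positivity
    have h8 : ε ≤ a * w.re + b * w.im := by nlinarith
    refine ⟨?_, ?_, h2⟩
    · by_contra hcon
      push Not at hcon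
      nlinarith
    · by_contra hcon
      push Not at hcon
      nlinarith

include ha in
theorem e1_O1 {w : ℂ} (hε : 0 < ε) (h : w ∈ e1 ε a) : w ∈ O1 ε a := by
  have hx : w.re ^ 2 = (a * w.re) ^ 2 := by rw [mul_pow, ha, one_mul]
  have h3 := (nlt hε.le).1 h.2.2
  change w.re ^ 2 + w.im ^ 2 < ε * (a * w.re)
  rw [h.1, hx] at h3 ⊢
  have h4 : a * w.re < ε := by nlinarith [h.2.1]
  nlinarith [h.2.1]

include hb in
theorem e2_O2 {w : ℂ} (hε : 0 < ε) (h : w ∈ e2 ε b) : w ∈ O2 ε b := by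
  have hx : w.im ^ 2 = (b * w.im) ^ 2 := by rw [mul_pow, hb, one_mul]
  have h3 := (nlt hε.le).1 h.2.2
  change w.re ^ 2 + w.im ^ 2 < ε * (b * w.im)
  rw [h.1, hx] at h3 ⊢
  have h4 : b * w.im < ε := by nlinarith [h.2.1]
  nlinarith [h.2.1]

include ha hb in
theorem e3_O3 {w : ℂ} (hε : 0 < ε) (h : w ∈ e3 ε a b) : w ∈ O3 ε a b := by
  have hx : w.re ^ 2 = (a * w.re) ^ 2 := by rw [mul_pow, ha, one_mul]
  have hy : w.im ^ 2 = (b * w.im) ^ 2 := by rw [mul_pow, hb, one_mul]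
  have h3 := (neq hε.le).1 h.2.2
  change w.re ^ 2 + w.im ^ 2 + ε ^ 2 < 2 * ε * (a * w.re + b * w.im)
  have h4 := mul_pos h.1 h.2.1
  have h5 : ε < a * w.re + b * w.im := by
    rw [hx, hy] at h3
    by_contra hcon
    push Not at hcon
    have h6 : 0 < a * w.re + b * w.im := add_pos h.1 h.2.1
    nlinarith
  rw [h3]
  nlinarith

end model

end Pool.Agent.R109.OC.A
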