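import Pool.Agent.R109.OC.A

/-! # Faces near a crossing point surrounded by a small circle: the theorem -/

set_option autoImplicit false

namespace Pool.Agent.R109.OC.A

open Pool.Agent.R109.OC Set Filter Topology

/-- the hypotheses of `S_A` -/
structure Ctx (A : Finset Ci) (K1 K2 K3 : Ci) (p q v : ℂ) (ε : ℝ) : Prop where
  m1 : K1 ∈ A
  m2 : K2 ∈ A
  m3 : K3 ∈ A
  n12 : K1 ≠ K2
  n13 : K1 ≠ K3
  n23 : K2 ≠ K3
  hpq : p ≠ q
  hε : 0 < ε
  hv : 3 * ε < ‖v‖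
  k1 : ∀ z, z ≠ q → (z ∈ pts K1 ↔ (v * (z - p) / (z - q)).im = 0)
  k2 : ∀ z, z ≠ q → (z ∈ pts K2 ↔ (v * (z - p) / (z - q)).re = 0)
  k3 : ∀ z, z ∈ pts K3 ↔ ‖v‖ * ‖z - p‖ = ε * ‖z - q‖
  kk : ∀ L ∈ A, L ≠ K1 → L ≠ K2 → L ≠ K3 → ∀ z ∈ pts L, 3 * ε * ‖z - q‖ < ‖v‖ * ‖z - p‖

section

variable {A : Finset Ci} {K1 K2 K3 : Ci} {p q v : ℂ} {ε : ℝ} (H : Ctx A K1 K2 K3 p q v ε)

include H

theorem on1 {w : ℂ} (hw : ‖w‖ ≤ 3 * ε) : ps p q v w ∈ pts K1 ↔ w.im = 0 := by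
  have h := hw.trans_lt H.hv
  rw [H.k1 _ (ps_ne_q H.hpq h)]
  have := ph_ps H.hpq h
  unfold ph at this
  rw [this]

theorem on2 {w : ℂ} (hw : ‖w‖ ≤ 3 * ε) : ps p q v w ∈ pts K2 ↔ w.re = 0 := by
  have h := hw.trans_lt H.hv
  rw [H.k2 _ (ps_ne_q H.hpq h)]
  have := ph_ps H.hpq h
  unfold ph at this
  rw [this]

theorem on3 {w : ℂ} (hw : ‖w‖ ≤ 3 * ε) : ps p q v w ∈ pts K3 ↔ ‖w‖ = ε := by
  have h := hw.trans_lt H.hv
  rw [H.k3, norm_ps H.hpq h]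
  have := norm_ps_q_pos H.hpq h
  constructor
  · intro h1; exact mul_right_cancel₀ this.ne' h1
  · intro h1; rw [h1]

theorem onL {w : ℂ} (hw : ‖w‖ ≤ 3 * ε) {L : Ci} (hL : L ∈ A) (h : ps p q v w ∈ pts L) :
    L = K1 ∨ L = K2 ∨ L = K3 := by
  have h' := hw.trans_lt H.hv
  by_contra hcon
  push Not at hcon
  have h1 := H.kk L hL hcon.1 hcon.2.1 hcon.2.2 _ h
  rw [norm_ps H.hpq h'] at h1
  have := norm_ps_q_pos H.hpq h'
  have h2 := lt_of_mul_lt_mul_right h1 this.le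
  linarith

theorem un_iff {w : ℂ} (hw : ‖w‖ ≤ 3 * ε) : ps p q v w ∈ Un A ↔ w ∈ M ε := by
  unfold Un M
  simp only [mem_iUnion, exists_prop, mem_setOf_eq]
  constructor
  · rintro ⟨L, hL, h⟩
    rcases onL H hw hL h with rfl | rfl | rfl
    · exact Or.inl ((on1 H hw).1 h)
    · exact Or.inr (Or.inl ((on2 H hw).1 h))
    · exact Or.inr (Or.inr ((on3 H hw).1 h))
  · rintro (h | h | h)
    · exact ⟨K1, H.m1, (on1 H hw).2 h⟩
    · exact ⟨K2, H.m2, (on2 H hw).2 h⟩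
    · exact ⟨K3, H.m3, (on3 H hw).2 h⟩

theorem cr_iff {w : ℂ} (hw : ‖w‖ ≤ 3 * ε) : ps p q v w ∈ Cr A ↔ w ∈ X ε := by
  unfold Cr X
  simp only [mem_setOf_eq]
  constructor
  · rintro ⟨K, hK, L, hL, hne, h1, h2⟩
    rcases onL H hw hK h1 with rfl | rfl | rfl <;> rcases onL H hw hL h2 with rfl | rfl | rfl
    · exact absurd rfl hne
    · exact Or.inl ⟨(on1 H hw).1 h1, (on2 H hw).1 h2⟩
    · exact Or.inr (Or.inl ⟨(on1 H hw).1 h1, (on3 H hw).1 h2⟩)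
    · exact Or.inl ⟨(on1 H hw).1 h2, (on2 H hw).1 h1⟩
    · exact absurd rfl hne
    · exact Or.inr (Or.inr ⟨(on2 H hw).1 h1, (on3 H hw).1 h2⟩)
    · exact Or.inr (Or.inl ⟨(on1 H hw).1 h2, (on3 H hw).1 h1⟩)
    · exact Or.inr (Or.inr ⟨(on2 H hw).1 h2, (on3 H hw).1 h1⟩)
    · exact absurd rfl hne
  · rintro (h | h | h)
    · exact ⟨K1, H.m1, K2, H.m2, H.n12, (on1 H hw).2 h.1, (on2 H hw).2 h.2⟩
    · exact ⟨K1, H.m1, K3, H.m3, H.n13, (on1 H hw).2 h.1, (on3 H hw).2 h.2⟩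
    · exact ⟨K2, H.m2, K3, H.m3, H.n23, (on2 H hw).2 h.1, (on3 H hw).2 h.2⟩

/-- a model arc is an arc -/
theorem arc {e O C : Set ℂ} (he : IsPreconnected e) (heO : e ⊆ O) (hO : IsOpen O) (hOC : O ⊆ C)
    (hC : IsCompact C) (hCε : ∀ w ∈ C, ‖w‖ ≤ 3 * ε)
    (h1 : ∀ w ∈ e, w ∈ M ε ∧ w ∉ X ε) (h2 : ∀ w ∈ C, w ∈ M ε → w ∉ X ε → w ∈ e)
    {z : ℂ} (hz : z ∈ ps p q v '' e) :
    connectedComponentIn (Un A \ Cr A) z = ps p q v '' e := by
  refine comp H.hpq he ?_ heO hO hOC hC ?_ ?_ hz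
  · rintro _ ⟨w, hw, rfl⟩
    have hw3 := hCε w (hOC (heO hw))
    exact ⟨(un_iff H hw3).2 (h1 w hw).1, fun h => (h1 w hw).2 ((cr_iff H hw3).1 h)⟩
  · intro w hw
    simpa using (hCε w hw).trans_lt H.hv
  · rintro _ ⟨⟨w, hw, rfl⟩, hW⟩
    have hw3 := hCε w hw
    exact ⟨w, h2 w hw ((un_iff H hw3).1 hW.1) (fun h => hW.2 ((cr_iff H hw3).2 h)), rfl⟩

theorem ball_of {w : ℂ} (hw : ‖w‖ ≤ 3 * ε) : w ∈ Metric.ball (0 : ℂ) ‖v‖ := by
  simpa using hw.trans_lt H.hv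

variable {a b : ℝ}

theorem Qc_ball : Qc ε a b ⊆ Metric.ball (0 : ℂ) ‖v‖ := by
  intro w hw
  have := H.hε
  exact ball_of H (hw.2.2.trans (by linarith))

/-- the model quarter disc is a face -/
theorem face (ha : a ^ 2 = 1) (hb : b ^ 2 = 1) {z : ℂ} (hz : z ∈ ps p q v '' Q ε a b) :
    connectedComponentIn (Un A)ᶜ z = ps p q v '' Q ε a b := by
  have hε := H.hε
  have hsub : Q ε a b ⊆ Qc ε a b := fun w hw => ⟨hw.1.le, hw.2.1.le, hw.2.2.le⟩
  refine comp H.hpq Q_conv.isPreconnected ?_ Subset.rfl (Q_open hε) hsub Qc_comp (Qc_ball H) ?_ hz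
  · rintro _ ⟨w, hw, rfl⟩
    have hw3 : ‖w‖ ≤ 3 * ε := by linarith [hw.2.2]
    intro h
    rcases (un_iff H hw3).1 h with h1 | h1 | h1
    · have := hw.2.1; rw [h1, mul_zero] at this; exact lt_irrefl _ this
    · have := hw.1; rw [h1, mul_zero] at this; exact lt_irrefl _ this
    · have := hw.2.2; rw [h1] at this; exact lt_irrefl _ this
  · rintro _ ⟨⟨w, hw, rfl⟩, hW⟩
    have hw3 : ‖w‖ ≤ 3 * ε := by linarith [hw.2.2]
    have hM : w ∉ M ε := fun h => hW ((un_iff H hw3).2 h)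
    have hM1 : w.im ≠ 0 := fun h => hM (Or.inl h)
    have hM2 : w.re ≠ 0 := fun h => hM (Or.inr (Or.inl h))
    have hM3 : ‖w‖ ≠ ε := fun h => hM (Or.inr (Or.inr h))
    have ha0 : a ≠ 0 := by intro h; rw [h] at ha; norm_num at ha
    have hb0 : b ≠ 0 := by intro h; rw [h] at hb; norm_num at hb
    exact ⟨w, ⟨lt_of_le_of_ne hw.1 (mul_ne_zero ha0 hM2).symm,
      lt_of_le_of_ne hw.2.1 (mul_ne_zero hb0 hM1).symm, lt_of_le_of_ne hw.2.2 hM3⟩, rfl⟩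

theorem arc1 (ha : a ^ 2 = 1) {z : ℂ} (hz : z ∈ ps p q v '' e1 ε a) :
    connectedComponentIn (Un A \ Cr A) z = ps p q v '' e1 ε a := by
  have hε := H.hε
  refine arc H (O := O1 ε a) (C := C1 ε a) e1_conv.isPreconnected
    (fun w hw => e1_O1 ha hε hw) O1_open ?_ (C1_comp hε ha)
    (fun w hw => C1_le hε ha hw) ?_ (fun w hw hM hX => C1_M hε ha hw hM hX) hz
  · intro w hw
    have h : w.re ^ 2 + w.im ^ 2 < ε * (a * w.re) := hw
    exact h.le
  · intro w hw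
    refine ⟨Or.inl hw.1, ?_⟩
    rintro (h | h | h)
    · have := hw.2.1; rw [h.2, mul_zero] at this; exact lt_irrefl _ this
    · have := hw.2.2; rw [h.2] at this; exact lt_irrefl _ this
    · have := hw.2.2; rw [h.2] at this; exact lt_irrefl _ this

theorem arc2 (hb : b ^ 2 = 1) {z : ℂ} (hz : z ∈ ps p q v '' e2 ε b) :
    connectedComponentIn (Un A \ Cr A) z = ps p q v '' e2 ε b := by
  have hε := H.hε
  refine arc H (O := O2 ε b) (C := C2 ε b) e2_conv.isPreconnected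
    (fun w hw => e2_O2 hb hε hw) O2_open ?_ (C2_comp hε hb)
    (fun w hw => C2_le hε hb hw) ?_ (fun w hw hM hX => C2_M hε hb hw hM hX) hz
  · intro w hw
    have h : w.re ^ 2 + w.im ^ 2 < ε * (b * w.im) := hw
    exact h.le
  · intro w hw
    refine ⟨Or.inr (Or.inl hw.1), ?_⟩
    rintro (h | h | h)
    · have := hw.2.1; rw [h.1, mul_zero] at this; exact lt_irrefl _ this
    · have := hw.2.2; rw [h.2] at this; exact lt_irrefl _ this
    · have := hw.2.2; rw [h.2] at this; exact lt_irrefl _ this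

theorem arc3 (ha : a ^ 2 = 1) (hb : b ^ 2 = 1) {z : ℂ} (hz : z ∈ ps p q v '' e3 ε a b) :
    connectedComponentIn (Un A \ Cr A) z = ps p q v '' e3 ε a b := by
  have hε := H.hε
  refine arc H (O := O3 ε a b) (C := C3 ε a b) (e3_pre hε)
    (fun w hw => e3_O3 ha hb hε hw) O3_open ?_ (C3_comp hε ha hb)
    (fun w hw => C3_le hε ha hb hw) ?_ (fun w hw hM hX => C3_M hε ha hb hw hM hX) hz
  · intro w hw
    have h : w.re ^ 2 + w.im ^ 2 + ε ^ 2 < 2 * ε * (a * w.re + b * w.im) := hw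
    exact h.le
  · intro w hw
    refine ⟨Or.inr (Or.inr hw.2.2), ?_⟩
    rintro (h | h | h)
    · have := hw.1; rw [h.2, mul_zero] at this; exact lt_irrefl _ this
    · have := hw.2.1; rw [h.1, mul_zero] at this; exact lt_irrefl _ this
    · have := hw.1; rw [h.1, mul_zero] at this; exact lt_irrefl _ this

omit H in
theorem e1_ne (hε : 0 < ε) (ha : a ^ 2 = 1) : (⟨a * (ε / 2), 0⟩ : ℂ) ∈ e1 ε a := by
  refine ⟨rfl, ?_, ?_⟩
  · have : a * (a * (ε / 2)) = ε / 2 := by rw [← mul_assoc, ← sq, ha, one_mul]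
    simp only
    rw [this]; linarith
  · rw [nlt hε.le]
    simp only
    rw [mul_pow, ha]
    nlinarith

omit H in
theorem e2_ne (hε : 0 < ε) (hb : b ^ 2 = 1) : (⟨0, b * (ε / 2)⟩ : ℂ) ∈ e2 ε b := by
  refine ⟨rfl, ?_, ?_⟩
  · have : b * (b * (ε / 2)) = ε / 2 := by rw [← mul_assoc, ← sq, hb, one_mul]
    simp only
    rw [this]; linarith
  · rw [nlt hε.le]
    simp only
    rw [mul_pow, hb]
    nlinarith

omit H in
theorem e3_ne (hε : 0 < ε) (ha : a ^ 2 = 1) (hb : b ^ 2 = 1) :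
    (⟨a * (ε / Real.sqrt 2), b * (ε / Real.sqrt 2)⟩ : ℂ) ∈ e3 ε a b := by
  have h2 : 0 < ε / Real.sqrt 2 := by positivity
  refine ⟨?_, ?_, ?_⟩
  · simp only
    rw [← mul_assoc, ← sq, ha, one_mul]; exact h2
  · simp only
    rw [← mul_assoc, ← sq, hb, one_mul]; exact h2
  · rw [neq hε.le]
    simp only
    rw [mul_pow, mul_pow, ha, hb, div_pow, Real.sq_sqrt (by norm_num)]
    ring

omit H in
theorem Q_ne (hε : 0 < ε) (ha : a ^ 2 = 1) (hb : b ^ 2 = 1) :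
    (⟨a * (ε / 2), b * (ε / 2)⟩ : ℂ) ∈ Q ε a b := by
  refine ⟨?_, ?_, ?_⟩
  · simp only
    rw [← mul_assoc, ← sq, ha, one_mul]; linarith
  · simp only
    rw [← mul_assoc, ← sq, hb, one_mul]; linarith
  · rw [nlt hε.le]
    simp only
    rw [mul_pow, mul_pow, ha, hb]
    nlinarith

omit H in
theorem Qc_clos (hε : 0 < ε) (ha : a ^ 2 = 1) (hb : b ^ 2 = 1) : Qc ε a b ⊆ closure (Q ε a b) := by
  intro w hw
  refine clos_of (w0 := (⟨a * (ε / 2), b * (ε / 2)⟩ : ℂ)) fun s hs0 hs1 => ?_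
  have h0 := Q_ne hε ha hb
  refine ⟨?_, ?_, ?_⟩
  · simp only [Complex.add_re, Complex.real_smul, Complex.mul_re, Complex.ofReal_re,
      Complex.ofReal_im, zero_mul, sub_zero]
    have h1 : 0 < s * (a * (a * (ε / 2))) := mul_pos hs0 h0.1
    have h2 := mul_nonneg (sub_nonneg.2 hs1) hw.1
    nlinarith
  · simp only [Complex.add_im, Complex.real_smul, Complex.mul_im, Complex.ofReal_re,
      Complex.ofReal_im, zero_mul, add_zero]
    have h1 : 0 < s * (b * (b * (ε / 2))) := mul_pos hs0 h0.2.1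
    have h2 := mul_nonneg (sub_nonneg.2 hs1) hw.2.1
    nlinarith
  · have h1 : ‖(1 - s) • w + s • (⟨a * (ε / 2), b * (ε / 2)⟩ : ℂ)‖
        ≤ (1 - s) * ‖w‖ + s * ‖(⟨a * (ε / 2), b * (ε / 2)⟩ : ℂ)‖ := by
      refine (norm_add_le _ _).trans (le_of_eq ?_)
      rw [norm_smul, norm_smul, Real.norm_of_nonneg (sub_nonneg.2 hs1), Real.norm_of_nonneg hs0.le]
    have h2 := mul_le_mul_of_nonneg_left hw.2.2 (sub_nonneg.2 hs1)
    have h3 := mul_lt_mul_of_pos_left h0.2.2 hs0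
    linarith

omit H in
theorem c1_clos (hε : 0 < ε) (ha : a ^ 2 = 1) : c1 ε a ⊆ closure (e1 ε a) := by
  intro w hw
  refine clos_of (w0 := (⟨a * (ε / 2), 0⟩ : ℂ)) fun s hs0 hs1 => ?_
  have h0 := e1_ne hε ha
  refine ⟨?_, ?_, ?_⟩
  · simp [hw.1]
  · simp only [Complex.add_re, Complex.real_smul, Complex.mul_re, Complex.ofReal_re,
      Complex.ofReal_im, zero_mul, sub_zero]
    have h1 : 0 < s * (a * (a * (ε / 2))) := mul_pos hs0 h0.2.1
    have h2 := mul_nonneg (sub_nonneg.2 hs1) hw.2.1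
    nlinarith
  · have h1 : ‖(1 - s) • w + s • (⟨a * (ε / 2), 0⟩ : ℂ)‖
        ≤ (1 - s) * ‖w‖ + s * ‖(⟨a * (ε / 2), 0⟩ : ℂ)‖ := by
      refine (norm_add_le _ _).trans (le_of_eq ?_)
      rw [norm_smul, norm_smul, Real.norm_of_nonneg (sub_nonneg.2 hs1), Real.norm_of_nonneg hs0.le]
    have h2 := mul_le_mul_of_nonneg_left hw.2.2 (sub_nonneg.2 hs1)
    have h3 := mul_lt_mul_of_pos_left h0.2.2 hs0
    linarith

omit H in
theorem c2_clos (hε : 0 < ε) (hb : b ^ 2 = 1) : c2 ε b ⊆ closure (e2 ε b) := by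
  intro w hw
  refine clos_of (w0 := (⟨0, b * (ε / 2)⟩ : ℂ)) fun s hs0 hs1 => ?_
  have h0 := e2_ne hε hb
  refine ⟨?_, ?_, ?_⟩
  · simp [hw.1]
  · simp only [Complex.add_im, Complex.real_smul, Complex.mul_im, Complex.ofReal_re,
      Complex.ofReal_im, zero_mul, add_zero]
    have h1 : 0 < s * (b * (b * (ε / 2))) := mul_pos hs0 h0.2.1
    have h2 := mul_nonneg (sub_nonneg.2 hs1) hw.2.1
    nlinarith
  · have h1 : ‖(1 - s) • w + s • (⟨0, b * (ε / 2)⟩ : ℂ)‖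
        ≤ (1 - s) * ‖w‖ + s * ‖(⟨0, b * (ε / 2)⟩ : ℂ)‖ := by
      refine (norm_add_le _ _).trans (le_of_eq ?_)
      rw [norm_smul, norm_smul, Real.norm_of_nonneg (sub_nonneg.2 hs1), Real.norm_of_nonneg hs0.le]
    have h2 := mul_le_mul_of_nonneg_left hw.2.2 (sub_nonneg.2 hs1)
    have h3 := mul_lt_mul_of_pos_left h0.2.2 hs0
    linarith

theorem front (ha : a ^ 2 = 1) (hb : b ^ 2 = 1) :
    frontier (ps p q v '' Q ε a b) = ps p q v '' (Qc ε a b \ Q ε a b) := by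
  have hε := H.hε
  have hsub : Q ε a b ⊆ Qc ε a b := fun w hw => ⟨hw.1.le, hw.2.1.le, hw.2.2.le⟩
  have ho : IsOpen (ps p q v '' Q ε a b) :=
    ps_open H.hpq (Q_open hε) (hsub.trans (Qc_ball H))
  have hcl : closure (ps p q v '' Q ε a b) = ps p q v '' Qc ε a b := by
    refine Subset.antisymm (closure_ps H.hpq hsub Qc_comp (Qc_ball H)) ?_
    refine (image_mono (Qc_clos hε ha hb)).trans (ps_closure H.hpq ?_)
    exact (closure_minimal hsub Qc_comp.isClosed).trans (Qc_ball H)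
  rw [ho.frontier_eq, hcl]
  refine Subset.antisymm ?_ ?_
  · rintro _ ⟨⟨w, hw, rfl⟩, h⟩
    exact ⟨w, ⟨hw, fun h1 => h ⟨w, h1, rfl⟩⟩, rfl⟩
  · rintro _ ⟨w, ⟨hw, hn⟩, rfl⟩
    refine ⟨⟨w, hw, rfl⟩, ?_⟩
    rintro ⟨w', hw', h⟩
    have := ps_inj H.hpq (Qc_ball H (hsub hw')) (Qc_ball H hw) h
    rw [this] at hw'
    exact hn hw'

omit H in
theorem Qc_diff {w : ℂ} (hw : w ∈ Qc ε a b \ Q ε a b) (ha : a ^ 2 = 1) (hb : b ^ 2 = 1) :
    w ∈ c1 ε a ∨ w ∈ c2 ε b ∨ w ∈ e3 ε a b := by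
  have ha0 : a ≠ 0 := by intro h; rw [h] at ha; norm_num at ha
  have hb0 : b ≠ 0 := by intro h; rw [h] at hb; norm_num at hb
  obtain ⟨⟨h1, h2, h3⟩, h4⟩ := hw
  rcases eq_or_lt_of_le h1 with h5 | h5
  · right; left
    have : w.re = 0 := by
      rcases mul_eq_zero.1 h5.symm with h | h
      · exact absurd h ha0
      · exact h
    exact ⟨this, h2, h3⟩
  rcases eq_or_lt_of_le h2 with h6 | h6
  · left
    have : w.im = 0 := by
      rcases mul_eq_zero.1 h6.symm with h | h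
      · exact absurd h hb0
      · exact h
    exact ⟨this, h1, h3⟩
  rcases eq_or_lt_of_le h3 with h7 | h7
  · right; right
    exact ⟨h5, h6, h7⟩
  · exact absurd ⟨h5, h6, h7⟩ h4

omit H in
theorem e1_Qc (hb : b ^ 2 = 1) {w : ℂ} (hw : w ∈ e1 ε a) : w ∈ Qc ε a b \ Q ε a b := by
  refine ⟨⟨hw.2.1.le, ?_, hw.2.2.le⟩, ?_⟩
  · rw [hw.1, mul_zero]
  · intro h
    have := h.2.1
    rw [hw.1, mul_zero] at this
    exact lt_irrefl _ this

omit H in
theorem e2_Qc (ha : a ^ 2 = 1) {w : ℂ} (hw : w ∈ e2 ε b) : w ∈ Qc ε a b \ Q ε a b := by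
  refine ⟨⟨?_, hw.2.1.le, hw.2.2.le⟩, ?_⟩
  · rw [hw.1, mul_zero]
  · intro h
    have := h.1
    rw [hw.1, mul_zero] at this
    exact lt_irrefl _ this

omit H in
theorem e3_Qc {w : ℂ} (hw : w ∈ e3 ε a b) : w ∈ Qc ε a b \ Q ε a b := by
  refine ⟨⟨hw.1.le, hw.2.1.le, hw.2.2.le⟩, ?_⟩
  intro h
  have := h.2.2
  rw [hw.2.2] at this
  exact lt_irrefl _ this

theorem bd_eq (ha : a ^ 2 = 1) (hb : b ^ 2 = 1) :
    bd A (ps p q v '' Q ε a b)
      = {ps p q v '' e1 ε a, ps p q v '' e2 ε b, ps p q v '' e3 ε a b} := by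
  have hε := H.hε
  have hfr := front H ha hb
  have le3 : ∀ w ∈ Qc ε a b, ‖w‖ ≤ 3 * ε := fun w hw => by linarith [hw.2.2]
  have inW : ∀ w, w ∈ Qc ε a b → w ∈ M ε → w ∉ X ε → ps p q v w ∈ Un A \ Cr A := by
    intro w hw hM hX
    exact ⟨(un_iff H (le3 w hw)).2 hM, fun h => hX ((cr_iff H (le3 w hw)).1 h)⟩
  ext f
  constructor
  · rintro ⟨⟨z, hz, rfl⟩, hf⟩
    have hzf : z ∈ frontier (ps p q v '' Q ε a b) := hf (mem_connectedComponentIn hz)
    rw [hfr] at hzf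
    obtain ⟨w, hw, rfl⟩ := hzf
    have hX : w ∉ X ε := fun h => hz.2 ((cr_iff H (le3 w hw.1)).2 h)
    rcases Qc_diff hw ha hb with h | h | h
    · have h0 : w.re ≠ 0 := fun h0 => hX (Or.inl ⟨h.1, h0⟩)
      have h0' : ‖w‖ ≠ ε := fun h0 => hX (Or.inr (Or.inl ⟨h.1, h0⟩))
      have ha0 : a ≠ 0 := by intro h; rw [h] at ha; norm_num at ha
      left
      exact arc1 H ha ⟨w, ⟨h.1, lt_of_le_of_ne h.2.1 (mul_ne_zero ha0 h0).symm,
        lt_of_le_of_ne h.2.2 h0'⟩, rfl⟩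
    · have h0 : w.im ≠ 0 := fun h0 => hX (Or.inl ⟨h0, h.1⟩)
      have h0' : ‖w‖ ≠ ε := fun h0 => hX (Or.inr (Or.inr ⟨h.1, h0⟩))
      have hb0 : b ≠ 0 := by intro h; rw [h] at hb; norm_num at hb
      right; left
      exact arc2 H hb ⟨w, ⟨h.1, lt_of_le_of_ne h.2.1 (mul_ne_zero hb0 h0).symm,
        lt_of_le_of_ne h.2.2 h0'⟩, rfl⟩
    · right; right
      exact arc3 H ha hb ⟨w, h, rfl⟩
  · rintro (rfl | rfl | rfl)
    · refine ⟨⟨ps p q v _, ?_, (arc1 H ha ⟨_, e1_ne hε ha, rfl⟩).symm⟩, ?_⟩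
      · have h := e1_ne hε ha
        refine inW _ (e1_Qc hb h).1 (Or.inl h.1) ?_
        rintro (h' | h' | h')
        · have := h.2.1; rw [h'.2, mul_zero] at this; exact lt_irrefl _ this
        · have := h.2.2; rw [h'.2] at this; exact lt_irrefl _ this
        · have := h.2.2; rw [h'.2] at this; exact lt_irrefl _ this
      · rw [hfr]
        exact image_mono fun w hw => e1_Qc hb hw
    · refine ⟨⟨ps p q v _, ?_, (arc2 H hb ⟨_, e2_ne hε hb, rfl⟩).symm⟩, ?_⟩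
      · have h := e2_ne hε hb
        refine inW _ (e2_Qc ha h).1 (Or.inr (Or.inl h.1)) ?_
        rintro (h' | h' | h')
        · have := h.2.1; rw [h'.1, mul_zero] at this; exact lt_irrefl _ this
        · have := h.2.2; rw [h'.2] at this; exact lt_irrefl _ this
        · have := h.2.2; rw [h'.2] at this; exact lt_irrefl _ this
      · rw [hfr]
        exact image_mono fun w hw => e2_Qc ha hw
    · refine ⟨⟨ps p q v _, ?_, (arc3 H ha hb ⟨_, e3_ne hε ha hb, rfl⟩).symm⟩, ?_⟩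
      · have h := e3_ne hε ha hb
        refine inW _ (e3_Qc h).1 (Or.inr (Or.inr h.2.2)) ?_
        rintro (h' | h' | h')
        · have := h.1; rw [h'.2, mul_zero] at this; exact lt_irrefl _ this
        · have := h.2.1; rw [h'.1, mul_zero] at this; exact lt_irrefl _ this
        · have := h.1; rw [h'.1, mul_zero] at this; exact lt_irrefl _ this
      · rw [hfr]
        exact image_mono fun w hw => e3_Qc hw

theorem tri (ha : a ^ 2 = 1) (hb : b ^ 2 = 1) : Tri A (ps p q v '' Q ε a b) := by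
  have hε := H.hε
  have hQb := Qc_ball H (a := a) (b := b)
  have hbd := bd_eq H ha hb
  have hfr := front H ha hb
  have inj := ps_inj H.hpq (v := v)
  -- the three arcs are different
  have d12 : ps p q v '' e1 ε a ≠ ps p q v '' e2 ε b := by
    intro h
    have h1 : ps p q v (⟨a * (ε / 2), 0⟩ : ℂ) ∈ ps p q v '' e2 ε b := by
      rw [← h]; exact ⟨_, e1_ne hε ha, rfl⟩
    obtain ⟨w, hw, hw2⟩ := h1
    have h2 := inj (hQb (e2_Qc ha hw).1) (hQb (e1_Qc hb (e1_ne hε ha)).1) hw2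
    rw [h2] at hw
    have := hw.2.1
    simp at this
  have d13 : ps p q v '' e1 ε a ≠ ps p q v '' e3 ε a b := by
    intro h
    have h1 : ps p q v (⟨a * (ε / 2), 0⟩ : ℂ) ∈ ps p q v '' e3 ε a b := by
      rw [← h]; exact ⟨_, e1_ne hε ha, rfl⟩
    obtain ⟨w, hw, hw2⟩ := h1
    have h2 := inj (hQb (e3_Qc hw).1) (hQb (e1_Qc hb (e1_ne hε ha)).1) hw2
    rw [h2] at hw
    have := hw.2.1
    simp at this
  have d23 : ps p q v '' e2 ε b ≠ ps p q v '' e3 ε a b := by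
    intro h
    have h1 : ps p q v (⟨0, b * (ε / 2)⟩ : ℂ) ∈ ps p q v '' e3 ε a b := by
      rw [← h]; exact ⟨_, e2_ne hε hb, rfl⟩
    obtain ⟨w, hw, hw2⟩ := h1
    have h2 := inj (hQb (e3_Qc hw).1) (hQb (e2_Qc ha (e2_ne hε hb)).1) hw2
    rw [h2] at hw
    have := hw.1
    simp at this
  refine ⟨?_, ?_⟩
  · rw [hbd, Set.ncard_eq_three]
    exact ⟨_, _, _, d12, d13, d23, rfl⟩
  · refine Subset.antisymm ?_ ?_
    · rw [hfr]
      rintro _ ⟨w, hw, rfl⟩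
      have hsU : ∀ t ∈ ({ps p q v '' e1 ε a, ps p q v '' e2 ε b, ps p q v '' e3 ε a b} :
          Set (Set ℂ)), t ⊆ ⋃₀ bd A (ps p q v '' Q ε a b) := by
        intro t ht
        rw [hbd]
        exact subset_sUnion_of_mem ht
      have hcle : ∀ {e : Set ℂ}, e ⊆ Qc ε a b → closure e ⊆ Metric.ball (0 : ℂ) ‖v‖ := by
        intro e he
        exact (closure_minimal he Qc_comp.isClosed).trans hQb
      rcases Qc_diff hw ha hb with h | h | h
      · refine closure_mono (hsU _ (Or.inl rfl)) ?_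
        exact ps_closure H.hpq (hcle fun w hw => (e1_Qc hb hw).1) ⟨w, c1_clos hε ha h, rfl⟩
      · refine closure_mono (hsU _ (Or.inr (Or.inl rfl))) ?_
        exact ps_closure H.hpq (hcle fun w hw => (e2_Qc ha hw).1) ⟨w, c2_clos hε hb h, rfl⟩
      · refine subset_closure (hsU _ (Or.inr (Or.inr rfl)) ⟨w, h, rfl⟩)
    · refine closure_minimal ?_ isClosed_frontier
      exact sUnion_subset fun t ht => ht.2

end

/-- the signs -/
def sg (x : Bool) : ℝ := if x then 1 else -1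

theorem sg_sq (x : Bool) : sg x ^ 2 = 1 := by cases x <;> simp [sg]

theorem main : S_A := by
  classical
  intro A K1 K2 K3 p q v ε m1 m2 m3 n12 n13 n23 hpq hε hv k1 k2 k3 kk
  have H : Ctx A K1 K2 K3 p q v ε := ⟨m1, m2, m3, n12, n13, n23, hpq, hε, hv, k1, k2, k3, kk⟩
  have inj : Function.Injective
      (fun x : Bool × Bool => ps p q v '' Q ε (sg x.1) (sg x.2)) := by
    rintro ⟨x1, x2⟩ ⟨y1, y2⟩ h
    simp only at h
    have h0 := Q_ne hε (sg_sq x1) (sg_sq x2)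
    have h1 : ps p q v (⟨sg x1 * (ε / 2), sg x2 * (ε / 2)⟩ : ℂ)
        ∈ ps p q v '' Q ε (sg y1) (sg y2) := by
      rw [← h]; exact ⟨_, h0, rfl⟩
    obtain ⟨w, hw, hw2⟩ := h1
    have hsub : ∀ a b : ℝ, Q ε a b ⊆ Metric.ball (0 : ℂ) ‖v‖ := by
      intro a b w hw
      exact ball_of H (by linarith [hw.2.2])
    have h2 := ps_inj hpq (hsub _ _ hw) (hsub _ _ h0) hw2
    rw [h2] at hw
    have e1 := hw.1
    have e2 := hw.2.1
    simp only at e1 e2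
    have f1 : x1 = y1 := by
      cases x1 <;> cases y1 <;> simp [sg] at e1 ⊢ <;> linarith
    have f2 : x2 = y2 := by
      cases x2 <;> cases y2 <;> simp [sg] at e2 ⊢ <;> linarith
    rw [f1, f2]
  refine ⟨Finset.univ.image (fun x : Bool × Bool => ps p q v '' Q ε (sg x.1) (sg x.2)), ?_, ?_⟩
  · rw [Finset.card_image_of_injective _ inj]
    rfl
  · intro f hf
    rw [Finset.mem_image] at hf
    obtain ⟨⟨x1, x2⟩, -, rfl⟩ := hf
    simp only
    have h0 := Q_ne hε (sg_sq x1) (sg_sq x2)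
    refine ⟨⟨ps p q v _, ?_, (face H (sg_sq x1) (sg_sq x2) ⟨_, h0, rfl⟩).symm⟩,
      tri H (sg_sq x1) (sg_sq x2), ⟨_, ⟨_, h0, rfl⟩⟩, ?_⟩
    · have hw3 : ‖(⟨sg x1 * (ε / 2), sg x2 * (ε / 2)⟩ : ℂ)‖ ≤ 3 * ε := by linarith [h0.2.2]
      intro h
      rcases (un_iff H hw3).1 h with h1 | h1 | h1
      · have := h0.2.1; rw [h1, mul_zero] at this; exact lt_irrefl _ this
      · have := h0.1; rw [h1, mul_zero] at this; exact lt_irrefl _ this
      · have := h0.2.2; rw [h1] at this; exact lt_irrefl _ this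
    · rintro _ ⟨w, hw, rfl⟩
      have hw3 : ‖w‖ < ‖v‖ := by linarith [hw.2.2]
      rw [norm_ps hpq hw3]
      exact mul_lt_mul_of_pos_right hw.2.2 (norm_ps_q_pos hpq hw3)

end Pool.Agent.R109.OC.A
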