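import Mathlib

/-!
# Arrangements of orthogonal circles: definitions and statements of the pieces (project OC)
-/

set_option autoImplicit false

open ComplexConjugate

namespace Pool.Agent.R109.OC

/-- a circle of the Euclidean plane `ℂ`: centre and radius -/
abbrev Ci := ℂ × ℝ

/-- the point set of a circle -/
def pts (K : Ci) : Set ℂ := Metric.sphere K.1 K.2

/-- two circles intersect orthogonally: they meet in exactly two points, and at both the radii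
(hence the tangent lines) are perpendicular -/
def Ort (K L : Ci) : Prop :=
  (pts K ∩ pts L).ncard = 2 ∧ ∀ z ∈ pts K ∩ pts L, ((z - K.1) * conj (z - L.1)).re = 0

/-- arrangement of orthogonal circles -/
def Arr (A : Finset Ci) : Prop :=
  (∀ K ∈ A, 0 < K.2) ∧
    ∀ K ∈ A, ∀ L ∈ A, K ≠ L → Disjoint (pts K) (pts L) ∨ Ort K L

/-- the union of the circles -/
def Un (A : Finset Ci) : Set ℂ := ⋃ K ∈ A, pts K

/-- the crossing points -/
def Cr (A : Finset Ci) : Set ℂ := {z | ∃ K ∈ A, ∃ L ∈ A, K ≠ L ∧ z ∈ pts K ∧ z ∈ pts L}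

/-- the faces: connected components of the complement of the union (the unbounded one included) -/
def Faces (A : Finset Ci) : Set (Set ℂ) := {f | ∃ z ∈ (Un A)ᶜ, f = connectedComponentIn (Un A)ᶜ z}

/-- the open arcs into which the crossing points cut the circles -/
def Arcs (A : Finset Ci) : Set (Set ℂ) :=
  {a | ∃ z ∈ Un A \ Cr A, a = connectedComponentIn (Un A \ Cr A) z}

/-- the arcs of the boundary of `f` -/
def bd (A : Finset Ci) (f : Set ℂ) : Set (Set ℂ) := {a ∈ Arcs A | a ⊆ frontier f}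

/-- the face `f` is triangular: its boundary consists of exactly three arcs (and their end points) -/
def Tri (A : Finset Ci) (f : Set ℂ) : Prop :=
  (bd A f).ncard = 3 ∧ frontier f = closure (⋃₀ bd A f)

/-! ### the pieces -/

/-- **piece A** (faces near a crossing point surrounded by a small circle). `K1` and `K2` are in
the chart `φ z = v (z - p) / (z - q)` the real and the imaginary axis, `K3` is `|φ| = ε`, no other
circle meets `|φ| ≤ 3 ε`. -/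
def S_A : Prop := ∀ (A : Finset Ci) (K1 K2 K3 : Ci) (p q v : ℂ) (ε : ℝ),
  K1 ∈ A → K2 ∈ A → K3 ∈ A → K1 ≠ K2 → K1 ≠ K3 → K2 ≠ K3 → p ≠ q → 0 < ε → 3 * ε < ‖v‖ →
  (∀ z, z ≠ q → (z ∈ pts K1 ↔ (v * (z - p) / (z - q)).im = 0)) →
  (∀ z, z ≠ q → (z ∈ pts K2 ↔ (v * (z - p) / (z - q)).re = 0)) →
  (∀ z, z ∈ pts K3 ↔ ‖v‖ * ‖z - p‖ = ε * ‖z - q‖) →
  (∀ L ∈ A, L ≠ K1 → L ≠ K2 → L ≠ K3 → ∀ z ∈ pts L, 3 * ε * ‖z - q‖ < ‖v‖ * ‖z - p‖) →
  ∃ F : Finset (Set ℂ), F.card = 4 ∧ ∀ f ∈ F, f ∈ Faces A ∧ Tri A f ∧ f.Nonempty ∧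
    ∀ z ∈ f, ‖v‖ * ‖z - p‖ < ε * ‖z - q‖

/-- **piece B** (a small circle around every point of a finite set of crossing points) -/
def S_B : Prop := ∀ (A : Finset Ci) (P : Finset ℂ), Arr A → (↑P : Set ℂ) ⊆ Cr A →
  ∃ A' : Finset Ci, Arr A' ∧ A'.card = A.card + P.card ∧
    ∃ F : Finset (Set ℂ), F.card = 4 * P.card ∧ ∀ f ∈ F, f ∈ Faces A' ∧ Tri A' f

/-- the circle number `m` of the ring number `j` (`s = sin (π/d)`, `l > 1` the scaling factor) -/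
noncomputable def ring (d : ℕ) (s l : ℝ) (j m : ℕ) : Ci :=
  ((l ^ j : ℝ) * Complex.exp (Complex.I * ((Real.pi * (2 * m + j) / d : ℝ) : ℂ)),
    Real.sqrt 2 * s * l ^ j)

/-- the central circle number `j` -/
noncomputable def cent (d : ℕ) (l : ℝ) (j : ℕ) : Ci :=
  (0, Real.sqrt (Real.cos (2 * Real.pi / d)) * l ^ j)

/-- metric form of orthogonality -/
def OrtD (K L : Ci) : Prop := ‖K.1 - L.1‖ ^ 2 = K.2 ^ 2 + L.2 ^ 2

/-- metric form of disjointness -/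
def DisD (K L : Ci) : Prop := K.2 + L.2 < ‖K.1 - L.1‖ ∨ ‖K.1 - L.1‖ < |K.2 - L.2|

/-- **piece O** -/
def S_O : Prop := ∀ K L : Ci, 0 < K.2 → 0 < L.2 →
  (OrtD K L → Ort K L) ∧ (DisD K L → Disjoint (pts K) (pts L))

/-- **piece N**: no point lies on three circles -/
def S_N : Prop := ∀ A : Finset Ci, Arr A → ∀ K ∈ A, ∀ L ∈ A, ∀ M ∈ A, K ≠ L → K ≠ M → L ≠ M →
  ∀ z, z ∈ pts K → z ∈ pts L → z ∉ pts M

/-- **piece P**: counting crossing points -/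
def S_P : Prop := ∀ (A : Finset Ci) (E : Finset (Ci × Ci)), Arr A →
  (∀ e ∈ E, e.1 ∈ A ∧ e.2 ∈ A ∧ e.1 ≠ e.2 ∧ Ort e.1 e.2 ∧ (e.2, e.1) ∉ E) →
  ∃ P : Finset ℂ, (↑P : Set ℂ) ⊆ Cr A ∧ P.card = 2 * E.card

/-- **piece G**: the geometry of the ring arrangement -/
def S_G : Prop := ∀ d : ℕ, 5 ≤ d → ∃ s l : ℝ, 0 < s ∧ 1 < l ∧ 0 < Real.cos (2 * Real.pi / d) ∧
  (∀ j m, ring d s l j (m + d) = ring d s l j m) ∧
  (∀ j m, OrtD (ring d s l j m) (ring d s l j (m + 1))) ∧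
  (∀ j m, OrtD (ring d s l j m) (ring d s l (j + 1) m)) ∧
  (∀ j m, OrtD (ring d s l j (m + 1)) (ring d s l (j + 1) m)) ∧
  (∀ j m m', m < d → m' < d → m + 2 ≤ m' → ¬ (m = 0 ∧ m' = d - 1) →
    DisD (ring d s l j m) (ring d s l j m')) ∧
  (∀ j m m', m < d → m' < d → m ≠ m' → m ≠ m' + 1 → ¬ (m = 0 ∧ m' = d - 1) →
    DisD (ring d s l j m) (ring d s l (j + 1) m')) ∧
  (∀ j i m m', 2 ≤ i → DisD (ring d s l j m) (ring d s l (j + i) m')) ∧
  (∀ j m, OrtD (cent d l j) (ring d s l j m)) ∧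
  (∀ j j' m, j ≠ j' → DisD (cent d l j) (ring d s l j' m)) ∧
  (∀ j j', j ≠ j' → DisD (cent d l j) (cent d l j'))

/-- **piece C** (the ring arrangement): `k` rings of `d` circles and `k` concentric circles, with at
least `4 d k - 2 d` orthogonal pairs, hence at least `8 d k - 4 d` crossing points -/
def S_C : Prop := ∀ d k : ℕ, 5 ≤ d → 1 ≤ k →
  ∃ A : Finset Ci, Arr A ∧ A.card = k * (d + 1) ∧
    ∃ P : Finset ℂ, (↑P : Set ℂ) ⊆ Cr A ∧ 8 * d * k - 4 * d ≤ P.card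

/-- the final statement -/
def S_F : Prop :=
  (∃ C : ℝ, ∀ n : ℕ, ∃ A : Finset Ci, Arr A ∧ A.card = n ∧
    ∃ F : Finset (Set ℂ), (∀ f ∈ F, f ∈ Faces A ∧ Tri A f) ∧
      32 / 9 * (n : ℝ) - C * Real.sqrt n ≤ F.card) ∧
  (∃ n₀ : ℕ, ∀ n : ℕ, n₀ ≤ n → ∃ A : Finset Ci, Arr A ∧ A.card = n ∧
    ∃ F : Finset (Set ℂ), (∀ f ∈ F, f ∈ Faces A ∧ Tri A f) ∧ 3 * n - 3 < F.card)

end Pool.Agent.R109.OC
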