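import Mathlib
import Pool.Agent.R109.OC.Defs

/-!
# Project OC, piece B: small circles around crossing points (helper193)
-/

set_option autoImplicit false

open ComplexConjugate Filter Topology

namespace Pool.Agent.R109.OC.B

open Pool.Agent.R109.OC

theorem mem_pts {K : Ci} (hK : 0 < K.2) (z : ℂ) :
    z ∈ pts K ↔ Complex.normSq (z - K.1) = K.2 ^ 2 := by
  unfold pts
  rw [Metric.mem_sphere, Complex.dist_eq, Complex.normSq_eq_norm_sq]
  constructor
  · intro h
    rw [h]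
  · intro h
    exact (sq_eq_sq₀ (norm_nonneg _) hK.le).mp h

theorem key0 (a b u : ℂ) (R : ℝ) (ha : Complex.normSq a = R) (hb : Complex.normSq b = R)
    (hab : a ≠ b) (hub : u ≠ b) :
    (conj (Complex.I * a / (a - b)) * ((u - a) / (u - b))).im * (2 * Complex.normSq (u - b))
      = -(Complex.normSq u - R) := by
  have h1 : a - b ≠ 0 := sub_ne_zero.2 hab
  have h2 : u - b ≠ 0 := sub_ne_zero.2 hub
  have h1' : conj a - conj b ≠ 0 := by
    rw [← map_sub]
    exact (map_ne_zero _).2 h1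
  have h2' : conj u - conj b ≠ 0 := by
    rw [← map_sub]
    exact (map_ne_zero _).2 h2
  have hX : (conj (Complex.I * a / (a - b)) * ((u - a) / (u - b))) *
      ((Complex.normSq (a - b) * Complex.normSq (u - b) : ℝ) : ℂ)
      = -Complex.I * conj a * (a - b) * ((u - a) * conj (u - b)) := by
    rw [Complex.ofReal_mul, ← Complex.mul_conj, ← Complex.mul_conj]
    simp only [map_sub, map_div₀, map_mul, Complex.conj_I]
    field_simp
  have him := congrArg Complex.im hX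
  rw [Complex.im_mul_ofReal] at him
  have hN1 : 0 < Complex.normSq (a - b) := Complex.normSq_pos.2 h1
  have hrhs : (-Complex.I * conj a * (a - b) * ((u - a) * conj (u - b))).im
      = -(Complex.normSq (a - b) / 2) * (Complex.normSq u - R) := by
    rw [Complex.normSq_apply] at ha hb
    rw [Complex.normSq_apply, Complex.normSq_apply]
    simp only [Complex.mul_im, Complex.mul_re, Complex.neg_im, Complex.neg_re, Complex.I_re,
      Complex.I_im, Complex.conj_re, Complex.conj_im, Complex.sub_re, Complex.sub_im]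
    linear_combination
      (-((u.re * u.re + u.im * u.im) / 2 + (a.re * b.re + a.im * b.im)
        - (a.re * u.re + a.im * u.im) - (b.re * b.re + b.im * b.im) / 2)) * ha
      + (-(-(u.re * u.re + u.im * u.im) / 2 + (a.re * u.re + a.im * u.im) -
        (a.re * a.re + a.im * a.im) / 2)) * hb
  rw [hrhs] at him
  have : Complex.normSq (a - b) *
      ((conj (Complex.I * a / (a - b)) * ((u - a) / (u - b))).im * (2 * Complex.normSq (u - b)))
      = Complex.normSq (a - b) * (-(Complex.normSq u - R)) := by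
    linear_combination 2 * him
  exact mul_left_cancel₀ hN1.ne' this

theorem key (p q z c : ℂ) (R : ℝ) (ha : Complex.normSq (p - c) = R)
    (hb : Complex.normSq (q - c) = R) (hpq : p ≠ q) (hz : z ≠ q) :
    (conj (Complex.I * (p - c) / (p - q)) * ((z - p) / (z - q))).im * (2 * Complex.normSq (z - q))
      = -(Complex.normSq (z - c) - R) := by
  have := key0 (p - c) (q - c) (z - c) R ha hb (by simpa using hpq) (by simpa using hz)
  simpa only [sub_sub_sub_cancel_right] using this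

/-- the small circle -/
noncomputable def Ks (p q : ℂ) (r : ℝ) : Ci :=
  (⟨(p.re - r ^ 2 * q.re) / (1 - r ^ 2), (p.im - r ^ 2 * q.im) / (1 - r ^ 2)⟩,
    r * ‖p - q‖ / (1 - r ^ 2))

theorem one_sub_pos {r : ℝ} (h0 : 0 < r) (h1 : r < 1) : 0 < 1 - r ^ 2 := by nlinarith

theorem Ks_pos {p q : ℂ} {r : ℝ} (h0 : 0 < r) (h1 : r < 1) (hpq : p ≠ q) : 0 < (Ks p q r).2 := by
  have := one_sub_pos h0 h1
  have h2 : 0 < ‖p - q‖ := norm_pos_iff.2 (sub_ne_zero.2 hpq)
  show 0 < r * ‖p - q‖ / (1 - r ^ 2)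
  positivity

theorem mem_Ks {p q : ℂ} {r : ℝ} (h0 : 0 < r) (h1 : r < 1) (hpq : p ≠ q) (z : ℂ) :
    z ∈ pts (Ks p q r) ↔ ‖z - p‖ = r * ‖z - q‖ := by
  have hr := one_sub_pos h0 h1
  rw [mem_pts (Ks_pos h0 h1 hpq)]
  have hid : (1 - r ^ 2) * (Complex.normSq (z - (Ks p q r).1) - (Ks p q r).2 ^ 2)
      = Complex.normSq (z - p) - r ^ 2 * Complex.normSq (z - q) := by
    have e2 : (Ks p q r).2 ^ 2 = r ^ 2 * Complex.normSq (p - q) / (1 - r ^ 2) ^ 2 := by
      show (r * ‖p - q‖ / (1 - r ^ 2)) ^ 2 = _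
      rw [Complex.normSq_eq_norm_sq, div_pow, mul_pow]
    rw [e2]
    simp only [Ks, Complex.normSq_apply, Complex.sub_re, Complex.sub_im]
    field_simp
    ring
  have hsq : ‖z - p‖ = r * ‖z - q‖ ↔ Complex.normSq (z - p) = r ^ 2 * Complex.normSq (z - q) := by
    rw [Complex.normSq_eq_norm_sq, Complex.normSq_eq_norm_sq, ← mul_pow]
    exact (sq_eq_sq₀ (norm_nonneg _) (by positivity)).symm
  rw [hsq]
  constructor
  · intro h
    rw [h, sub_self, mul_zero] at hid
    linarith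
  · intro h
    rw [h, sub_self] at hid
    rcases mul_eq_zero.1 hid with h' | h'
    · exact absurd h' hr.ne'
    · linarith

theorem ortD_Ks {p q : ℂ} {r : ℝ} (h0 : 0 < r) (h1 : r < 1) {K : Ci}
    (hp : Complex.normSq (p - K.1) = K.2 ^ 2) (hq : Complex.normSq (q - K.1) = K.2 ^ 2) :
    OrtD (Ks p q r) K := by
  have hr := one_sub_pos h0 h1
  unfold OrtD
  rw [← Complex.normSq_eq_norm_sq]
  have e2 : (Ks p q r).2 ^ 2 = r ^ 2 * Complex.normSq (p - q) / (1 - r ^ 2) ^ 2 := by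
    show (r * ‖p - q‖ / (1 - r ^ 2)) ^ 2 = _
    rw [Complex.normSq_eq_norm_sq, div_pow, mul_pow]
  rw [e2]
  have hkey : (1 - r ^ 2) ^ 2 * (Complex.normSq ((Ks p q r).1 - K.1))
      = r ^ 2 * Complex.normSq (p - q) + (1 - r ^ 2) ^ 2 * K.2 ^ 2 := by
    have e3 : (1 - r ^ 2) ^ 2 * (Complex.normSq ((Ks p q r).1 - K.1))
        = ((p.re - r ^ 2 * q.re) - (1 - r ^ 2) * K.1.re) ^ 2
          + ((p.im - r ^ 2 * q.im) - (1 - r ^ 2) * K.1.im) ^ 2 := by
      simp only [Ks, Complex.normSq_apply, Complex.sub_re, Complex.sub_im]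
      field_simp
    rw [e3]
    rw [Complex.normSq_apply] at hp hq
    rw [Complex.normSq_apply]
    simp only [Complex.sub_re, Complex.sub_im] at hp hq ⊢
    linear_combination (1 - r ^ 2) * hp + (r ^ 4 - r ^ 2) * hq
  field_simp
  linear_combination hkey

theorem ortD_symm {K L : Ci} (h : OrtD K L) : OrtD L K := by
  unfold OrtD at *
  rw [norm_sub_rev, h]
  ring

/-- the data at a crossing point -/
structure Dat (A : Finset Ci) (p : ℂ) (K1 K2 : Ci) (q v : ℂ) : Prop where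
  m1 : K1 ∈ A
  m2 : K2 ∈ A
  ne : K1 ≠ K2
  p1 : p ∈ pts K1
  p2 : p ∈ pts K2
  q1 : q ∈ pts K1
  q2 : q ∈ pts K2
  pq : p ≠ q
  nv : ‖v‖ = 1
  i1 : ∀ z, z ≠ q → (z ∈ pts K1 ↔ (v * (z - p) / (z - q)).im = 0)
  i2 : ∀ z, z ≠ q → (z ∈ pts K2 ↔ (v * (z - p) / (z - q)).re = 0)

theorem exists_dat {A : Finset Ci} (hA : Arr A) {p : ℂ} (hp : p ∈ Cr A) :
    ∃ (K1 K2 : Ci) (q v : ℂ), Dat A p K1 K2 q v := by
  obtain ⟨K1, hK1, K2, hK2, hne, hp1, hp2⟩ := hp
  have hr1 := hA.1 K1 hK1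
  have hr2 := hA.1 K2 hK2
  have hort : Ort K1 K2 := by
    rcases hA.2 K1 hK1 K2 hK2 hne with h | h
    · exact absurd hp2 (Set.disjoint_left.1 h hp1)
    · exact h
  obtain ⟨a, b, hab, hset⟩ := Set.ncard_eq_two.1 hort.1
  have hq : ∃ q, q ∈ pts K1 ∩ pts K2 ∧ p ≠ q := by
    have hpm : p ∈ pts K1 ∩ pts K2 := ⟨hp1, hp2⟩
    rw [hset] at hpm ⊢
    rcases hpm with h | h
    · exact ⟨b, by simp, by rw [h]; exact hab⟩
    · rw [Set.mem_singleton_iff] at h
      exact ⟨a, by simp, by rw [h]; exact hab.symm⟩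
  obtain ⟨q, ⟨hq1, hq2⟩, hpq⟩ := hq
  have hperp := hort.2 p ⟨hp1, hp2⟩
  have np1 := (mem_pts hr1 p).1 hp1
  have nq1 := (mem_pts hr1 q).1 hq1
  have np2 := (mem_pts hr2 p).1 hp2
  have nq2 := (mem_pts hr2 q).1 hq2
  have ha0 : p - K1.1 ≠ 0 := by
    intro h
    rw [h, map_zero] at np1
    have : 0 < K1.2 ^ 2 := by positivity
    linarith
  have ha0' : p - K2.1 ≠ 0 := by
    intro h
    rw [h, map_zero] at np2
    have : 0 < K2.2 ^ 2 := by positivity
    linarith
  have hpq0 : p - q ≠ 0 := sub_ne_zero.2 hpq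
  set D : ℂ := Complex.I * (p - K1.1) / (p - q) with hD
  have hD0 : D ≠ 0 := div_ne_zero (mul_ne_zero Complex.I_ne_zero ha0) hpq0
  have hDn : 0 < ‖D‖ := norm_pos_iff.2 hD0
  -- the second direction
  obtain ⟨t, ht, htD⟩ : ∃ t : ℝ, t ≠ 0 ∧
      Complex.I * (p - K2.1) / (p - q) = (t : ℂ) * Complex.I * D := by
    refine ⟨((p - K2.1) / (p - K1.1)).im, ?_, ?_⟩
    · intro h
      have hre : ((p - K2.1) / (p - K1.1)).re = 0 := by
        rw [Complex.div_re]
        rw [Complex.mul_re, Complex.conj_re, Complex.conj_im] at hperp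
        have : (p - K2.1).re * (p - K1.1).re / Complex.normSq (p - K1.1)
            + (p - K2.1).im * (p - K1.1).im / Complex.normSq (p - K1.1)
            = ((p - K1.1).re * (p - K2.1).re - (p - K1.1).im * -(p - K2.1).im)
              / Complex.normSq (p - K1.1) := by ring
        rw [this, hperp, zero_div]
      have h0 : (p - K2.1) / (p - K1.1) = 0 := Complex.ext hre h
      exact (div_ne_zero ha0' ha0) h0
    · have hre : ((p - K2.1) / (p - K1.1)).re = 0 := by
        rw [Complex.div_re]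
        rw [Complex.mul_re, Complex.conj_re, Complex.conj_im] at hperp
        have : (p - K2.1).re * (p - K1.1).re / Complex.normSq (p - K1.1)
            + (p - K2.1).im * (p - K1.1).im / Complex.normSq (p - K1.1)
            = ((p - K1.1).re * (p - K2.1).re - (p - K1.1).im * -(p - K2.1).im)
              / Complex.normSq (p - K1.1) := by ring
        rw [this, hperp, zero_div]
      have hw : (p - K2.1) / (p - K1.1) =
          (((p - K2.1) / (p - K1.1)).im : ℂ) * Complex.I := by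
        apply Complex.ext
        · rw [hre]
          simp
        · simp
      have hmul : p - K2.1 = (((p - K2.1) / (p - K1.1)).im : ℂ) * Complex.I * (p - K1.1) := by
        rw [← hw]
        field_simp
      rw [hD]
      conv_lhs => rw [hmul]
      ring
  have hv : ∀ z : ℂ, (conj D / (‖D‖ : ℂ)) * (z - p) / (z - q)
      = ((‖D‖⁻¹ : ℝ) : ℂ) * (conj D * ((z - p) / (z - q))) := by
    intro z
    push_cast
    ring
  refine ⟨K1, K2, q, conj D / (‖D‖ : ℂ), hK1, hK2, hne, hp1, hp2, hq1, hq2, hpq, ?_, ?_, ?_⟩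
  · rw [norm_div, Complex.norm_conj, Complex.norm_real, norm_norm, div_self hDn.ne']
  · intro z hz
    rw [mem_pts hr1, hv, Complex.im_ofReal_mul]
    have hk := key p q z K1.1 (K1.2 ^ 2) np1 nq1 hpq hz
    rw [← hD] at hk
    have hzq : 0 < Complex.normSq (z - q) := Complex.normSq_pos.2 (sub_ne_zero.2 hz)
    constructor
    · intro h
      rw [h, sub_self, neg_zero] at hk
      rcases mul_eq_zero.1 hk with h' | h'
      · rw [h', mul_zero]
      · exact absurd h' (by positivity)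
    · intro h
      rcases mul_eq_zero.1 h with h' | h'
      · exact absurd h' (inv_ne_zero hDn.ne')
      · rw [h', zero_mul] at hk
        linarith
  · intro z hz
    rw [mem_pts hr2, hv]
    have hk := key p q z K2.1 (K2.2 ^ 2) np2 nq2 hpq hz
    rw [htD] at hk
    have hzq : 0 < Complex.normSq (z - q) := Complex.normSq_pos.2 (sub_ne_zero.2 hz)
    have e1 : (conj ((t : ℂ) * Complex.I * D) * ((z - p) / (z - q))).im
        = -(t * (conj D * ((z - p) / (z - q))).re) := by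
      rw [map_mul, map_mul, Complex.conj_ofReal, Complex.conj_I]
      have : (t : ℂ) * -Complex.I * conj D * ((z - p) / (z - q))
          = (t : ℂ) * (-Complex.I * (conj D * ((z - p) / (z - q)))) := by ring
      rw [this, Complex.im_ofReal_mul]
      simp
      ring
    rw [e1] at hk
    have e2 : (((‖D‖⁻¹ : ℝ) : ℂ) * (conj D * ((z - p) / (z - q)))).re
        = ‖D‖⁻¹ * (conj D * ((z - p) / (z - q))).re := by
      rw [Complex.re_ofReal_mul]
    rw [e2]
    constructor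
    · intro h
      rw [h, sub_self, neg_zero] at hk
      rcases mul_eq_zero.1 hk with h' | h'
      · rw [neg_eq_zero] at h'
        rcases mul_eq_zero.1 h' with h'' | h''
        · exact absurd h'' ht
        · rw [h'', mul_zero]
      · exact absurd h' (by positivity)
    · intro h
      rcases mul_eq_zero.1 h with h' | h'
      · exact absurd h' (inv_ne_zero hDn.ne')
      · rw [h', mul_zero, neg_zero, zero_mul] at hk
        linarith

/-- the region around `p` -/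
def Np (p q : ℂ) (r : ℝ) : Set ℂ := {z | ‖z - p‖ ≤ 3 * r * ‖z - q‖}

theorem Np_sub {p q : ℂ} {r : ℝ} (h0 : 0 < r) (h1 : 6 * r ≤ 1) {z : ℂ} (hz : z ∈ Np p q r) :
    ‖z - p‖ ≤ 6 * r * ‖p - q‖ := by
  have h2 : ‖z - q‖ ≤ ‖z - p‖ + ‖p - q‖ := by
    calc ‖z - q‖ = ‖(z - p) + (p - q)‖ := by rw [sub_add_sub_cancel]
      _ ≤ _ := norm_add_le _ _
  have h3 : ‖z - p‖ ≤ 3 * r * ‖z - q‖ := hz
  have h4 : 3 * r * ‖z - q‖ ≤ 3 * r * (‖z - p‖ + ‖p - q‖) :=
    mul_le_mul_of_nonneg_left h2 (by positivity)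
  have h5 : 0 ≤ ‖z - p‖ := norm_nonneg _
  nlinarith

theorem main (hA' : S_A) (hN : S_N) (hO : S_O) : S_B := by
  intro A P hA hP
  classical
  have hdat : ∀ p : ℂ, ∃ d : Ci × Ci × ℂ × ℂ, p ∈ P → Dat A p d.1 d.2.1 d.2.2.1 d.2.2.2 := by
    intro p
    by_cases hp : p ∈ P
    · obtain ⟨K1, K2, q, v, h⟩ := exists_dat hA (hP hp)
      exact ⟨(K1, K2, q, v), fun _ => h⟩
    · exact ⟨((0, 0), (0, 0), 0, 0), fun h => absurd h hp⟩
  choose d hd using hdat
  set K1 : ℂ → Ci := fun p => (d p).1 with hK1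
  set K2 : ℂ → Ci := fun p => (d p).2.1 with hK2
  set q : ℂ → ℂ := fun p => (d p).2.2.1 with hq
  set v : ℂ → ℂ := fun p => (d p).2.2.2 with hv
  have hd : ∀ p ∈ P, Dat A p (K1 p) (K2 p) (q p) (v p) := hd
  -- a separating distance
  have hsep : ∃ δ : ℝ, 0 < δ ∧ (∀ p ∈ P, ∀ L ∈ A, p ∉ pts L → ∀ z ∈ pts L, δ ≤ ‖z - p‖) ∧
      ∀ p ∈ P, ∀ p' ∈ P, p ≠ p' → 2 * δ ≤ ‖p - p'‖ := by
    have h1 : ∀ᶠ δ in 𝓝[>] (0 : ℝ), ∀ p ∈ P, ∀ L ∈ A, p ∉ pts L → ∀ z ∈ pts L, δ ≤ ‖z - p‖ := by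
      rw [Filter.eventually_all_finset]
      intro p _
      rw [Filter.eventually_all_finset]
      intro L _
      by_cases hpL : p ∈ pts L
      · exact Eventually.of_forall fun δ h => absurd hpL h
      · have hopen : IsOpen (pts L)ᶜ := Metric.isClosed_sphere.isOpen_compl
        obtain ⟨δ0, hδ0, hball⟩ := Metric.isOpen_iff.1 hopen p hpL
        have hev : ∀ᶠ δ in 𝓝[>] (0 : ℝ), δ < δ0 := nhdsWithin_le_nhds (Iio_mem_nhds hδ0)
        filter_upwards [hev] with δ hδ _ z hz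
        by_contra hc
        push Not at hc
        have : z ∈ Metric.ball p δ0 := by
          rw [Metric.mem_ball, Complex.dist_eq]
          linarith
        exact hball this hz
    have h2 : ∀ᶠ δ in 𝓝[>] (0 : ℝ), ∀ p ∈ P, ∀ p' ∈ P, p ≠ p' → 2 * δ ≤ ‖p - p'‖ := by
      rw [Filter.eventually_all_finset]
      intro p _
      rw [Filter.eventually_all_finset]
      intro p' _
      by_cases hpp : p = p'
      · exact Eventually.of_forall fun δ h => absurd hpp h
      · have hpos : 0 < ‖p - p'‖ / 2 := by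
          have := norm_pos_iff.2 (sub_ne_zero.2 hpp)
          positivity
        have hev : ∀ᶠ δ in 𝓝[>] (0 : ℝ), δ < ‖p - p'‖ / 2 :=
          nhdsWithin_le_nhds (Iio_mem_nhds hpos)
        filter_upwards [hev] with δ hδ _
        linarith
    obtain ⟨δ, hδ1, hδ2, hδ3⟩ := (h1.and (h2.and self_mem_nhdsWithin)).exists
    exact ⟨δ, hδ3, hδ1, hδ2⟩
  obtain ⟨δ, hδ, hδ1, hδ2⟩ := hsep
  -- the size of the small circles
  have hsize : ∃ ε : ℝ, 0 < ε ∧ 6 * ε ≤ 1 ∧ ∀ p ∈ P, 6 * ε * ‖p - q p‖ < δ := by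
    have h1 : ∀ᶠ ε in 𝓝[>] (0 : ℝ), ∀ p ∈ P, 6 * ε * ‖p - q p‖ < δ := by
      rw [Filter.eventually_all_finset]
      intro p _
      have hc : Tendsto (fun ε : ℝ => 6 * ε * ‖p - q p‖) (𝓝 0) (𝓝 (6 * 0 * ‖p - q p‖)) :=
        (Continuous.tendsto (by fun_prop) 0)
      have hc' : ∀ᶠ ε in 𝓝 (0 : ℝ), 6 * ε * ‖p - q p‖ < δ :=
        hc.eventually (Iio_mem_nhds (by simpa using hδ))
      exact hc'.filter_mono nhdsWithin_le_nhds
    have h2 : ∀ᶠ ε in 𝓝[>] (0 : ℝ), ε < 1 / 6 :=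
      nhdsWithin_le_nhds (Iio_mem_nhds (by norm_num))
    obtain ⟨ε, hε1, hε2, hε3⟩ := (h1.and (h2.and self_mem_nhdsWithin)).exists
    exact ⟨ε, hε3, by linarith, hε1⟩
  obtain ⟨ε, hε, hε6, hεδ⟩ := hsize
  have hε1 : ε < 1 := by linarith
  -- the regions
  have hNp : ∀ p ∈ P, ∀ z ∈ Np p (q p) ε, ‖z - p‖ < δ := fun p hp z hz =>
    lt_of_le_of_lt (Np_sub hε hε6 hz) (hεδ p hp)
  have hNdisj : ∀ p ∈ P, ∀ p' ∈ P, p ≠ p' → ∀ z, z ∈ Np p (q p) ε → z ∉ Np p' (q p') ε := by
    intro p hp p' hp' hne z hz hz'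
    have h1 := hNp p hp z hz
    have h2 := hNp p' hp' z hz'
    have h3 := hδ2 p hp p' hp' hne
    have h4 : ‖p - p'‖ ≤ ‖z - p‖ + ‖z - p'‖ := by
      calc ‖p - p'‖ = ‖(z - p') - (z - p)‖ := by congr 1; ring
        _ ≤ ‖z - p'‖ + ‖z - p‖ := norm_sub_le _ _
        _ = _ := by ring
    linarith
  have hNA : ∀ p ∈ P, ∀ L ∈ A, L ≠ K1 p → L ≠ K2 p → ∀ z ∈ pts L, z ∉ Np p (q p) ε := by
    intro p hp L hL h1 h2 z hz hz'
    have hD := hd p hp
    have hpL : p ∉ pts L := hN A hA (K1 p) hD.m1 (K2 p) hD.m2 L hL hD.ne h1.symm h2.symm p hD.p1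
      hD.p2
    have h3 := hδ1 p hp L hL hpL z hz
    have h4 := hNp p hp z hz'
    linarith
  set K3 : ℂ → Ci := fun p => Ks p (q p) ε with hK3
  have hK3N : ∀ p ∈ P, ∀ z ∈ pts (K3 p), z ∈ Np p (q p) ε := by
    intro p hp z hz
    have h1 := (mem_Ks hε hε1 (hd p hp).pq z).1 hz
    show ‖z - p‖ ≤ 3 * ε * ‖z - q p‖
    rw [h1]
    have : 0 ≤ ‖z - q p‖ := norm_nonneg _
    nlinarith
  have hK3pos : ∀ p ∈ P, 0 < (K3 p).2 := fun p hp => Ks_pos hε hε1 (hd p hp).pq
  have hK3ne : ∀ p ∈ P, (pts (K3 p)).Nonempty := by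
    intro p hp
    exact NormedSpace.sphere_nonempty.2 (hK3pos p hp).le
  have hpK3 : ∀ p ∈ P, p ∉ pts (K3 p) := by
    intro p hp h
    have h1 := (mem_Ks hε hε1 (hd p hp).pq p).1 h
    rw [sub_self, norm_zero] at h1
    have h2 : 0 < ‖p - q p‖ := norm_pos_iff.2 (sub_ne_zero.2 (hd p hp).pq)
    have : 0 < ε * ‖p - q p‖ := by positivity
    linarith
  have hK3A : ∀ p ∈ P, K3 p ∉ A := by
    intro p hp h
    have hD := hd p hp
    by_cases h1 : K3 p = K1 p
    · exact hpK3 p hp (h1 ▸ hD.p1)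
    by_cases h2 : K3 p = K2 p
    · exact hpK3 p hp (h2 ▸ hD.p2)
    obtain ⟨z, hz⟩ := hK3ne p hp
    exact hNA p hp (K3 p) h h1 h2 z hz (hK3N p hp z hz)
  have hK3inj : ∀ p ∈ P, ∀ p' ∈ P, p ≠ p' → Disjoint (pts (K3 p)) (pts (K3 p')) := by
    intro p hp p' hp' hne
    rw [Set.disjoint_left]
    intro z hz hz'
    exact hNdisj p hp p' hp' hne z (hK3N p hp z hz) (hK3N p' hp' z hz')
  have hinj : Set.InjOn K3 (P : Set ℂ) := by
    intro p hp p' hp' heq
    by_contra hne
    have h1 := hK3inj p hp p' hp' hne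
    rw [heq, disjoint_self] at h1
    obtain ⟨z, hz⟩ := hK3ne p' hp'
    rw [h1] at hz
    exact hz
  have hOrt : ∀ p ∈ P, ∀ L ∈ A, Disjoint (pts (K3 p)) (pts L) ∨ OrtD (K3 p) L := by
    intro p hp L hL
    have hD := hd p hp
    by_cases h1 : L = K1 p
    · right
      rw [h1]
      have hr := hA.1 _ hD.m1
      exact ortD_Ks hε hε1 ((mem_pts hr p).1 hD.p1) ((mem_pts hr (q p)).1 hD.q1)
    by_cases h2 : L = K2 p
    · right
      rw [h2]
      have hr := hA.1 _ hD.m2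
      exact ortD_Ks hε hε1 ((mem_pts hr p).1 hD.p2) ((mem_pts hr (q p)).1 hD.q2)
    left
    rw [Set.disjoint_left]
    intro z hz hz'
    exact hNA p hp L hL h1 h2 z hz' (hK3N p hp z hz)
  set B : Finset Ci := A ∪ P.image K3 with hB
  have hBdisj : Disjoint A (P.image K3) := by
    rw [Finset.disjoint_left]
    intro K hK hK'
    rw [Finset.mem_image] at hK'
    obtain ⟨p, hp, rfl⟩ := hK'
    exact hK3A p hp hK
  have hBA : Arr B := by
    refine ⟨?_, ?_⟩
    · intro K hK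
      rw [hB, Finset.mem_union, Finset.mem_image] at hK
      rcases hK with hK | ⟨p, hp, rfl⟩
      · exact hA.1 K hK
      · exact hK3pos p hp
    · intro K hK L hL hne
      rw [hB, Finset.mem_union, Finset.mem_image] at hK hL
      rcases hK with hK | ⟨p, hp, rfl⟩ <;> rcases hL with hL | ⟨p', hp', rfl⟩
      · exact hA.2 K hK L hL hne
      · rcases hOrt p' hp' K hK with h | h
        · exact Or.inl h.symm
        · exact Or.inr ((hO K (K3 p') (hA.1 K hK) (hK3pos p' hp')).1 (ortD_symm h))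
      · rcases hOrt p hp L hL with h | h
        · exact Or.inl h
        · exact Or.inr ((hO (K3 p) L (hK3pos p hp) (hA.1 L hL)).1 h)
      · exact Or.inl (hK3inj p hp p' hp' fun h => hne (by rw [h]))
  have hfaces : ∀ p ∈ P, ∃ F : Finset (Set ℂ), F.card = 4 ∧ ∀ f ∈ F, f ∈ Faces B ∧ Tri B f ∧
      f.Nonempty ∧ ∀ z ∈ f, ‖v p‖ * ‖z - p‖ < ε * ‖z - q p‖ := by
    intro p hp
    have hD := hd p hp
    have hm1 : K1 p ∈ B := Finset.mem_union_left _ hD.m1
    have hm2 : K2 p ∈ B := Finset.mem_union_left _ hD.m2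
    have hm3 : K3 p ∈ B := Finset.mem_union_right _ (Finset.mem_image_of_mem _ hp)
    refine hA' B (K1 p) (K2 p) (K3 p) p (q p) (v p) ε hm1 hm2 hm3 hD.ne ?_ ?_ hD.pq hε ?_ hD.i1
      hD.i2 ?_ ?_
    · intro h
      exact hK3A p hp (h ▸ hD.m1)
    · intro h
      exact hK3A p hp (h ▸ hD.m2)
    · rw [hD.nv]
      linarith
    · intro z
      rw [hD.nv, one_mul]
      exact mem_Ks hε hε1 hD.pq z
    · intro L hL h1 h2 h3 z hz
      rw [hD.nv, one_mul]
      have hzN : z ∉ Np p (q p) ε := by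
        rw [hB, Finset.mem_union, Finset.mem_image] at hL
        rcases hL with hL | ⟨p', hp', rfl⟩
        · exact hNA p hp L hL h1 h2 z hz
        · have hne : p' ≠ p := fun h => h3 (by rw [h])
          exact hNdisj p' hp' p hp hne z (hK3N p' hp' z hz)
      by_contra hc
      push Not at hc
      exact hzN hc
  choose! F hFc hF using hfaces
  have hFN : ∀ p ∈ P, ∀ f ∈ F p, ∀ z ∈ f, z ∈ Np p (q p) ε := by
    intro p hp f hf z hz
    have h1 := (hF p hp f hf).2.2.2 z hz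
    rw [(hd p hp).nv, one_mul] at h1
    show ‖z - p‖ ≤ 3 * ε * ‖z - q p‖
    have : 0 ≤ ‖z - q p‖ := norm_nonneg _
    nlinarith
  refine ⟨B, hBA, ?_, P.biUnion F, ?_, ?_⟩
  · rw [hB, Finset.card_union_of_disjoint hBdisj, Finset.card_image_of_injOn hinj]
  · rw [Finset.card_biUnion]
    · rw [Finset.sum_congr rfl hFc, Finset.sum_const, smul_eq_mul, mul_comm]
    · intro p hp p' hp' hne
      show Disjoint (F p) (F p')
      rw [Finset.disjoint_left]
      intro f hf hf'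
      obtain ⟨z, hz⟩ := (hF p hp f hf).2.2.1
      exact hNdisj p hp p' hp' hne z (hFN p hp f hf z hz) (hFN p' hp' f hf' z hz)
  · intro f hf
    rw [Finset.mem_biUnion] at hf
    obtain ⟨p, hp, hf⟩ := hf
    exact ⟨(hF p hp f hf).1, (hF p hp f hf).2.1⟩

end Pool.Agent.R109.OC.B
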