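import Pool.Agent.R109.OC.Defs

/-!
# Project OC, piece C: assembling the ring arrangement
-/

set_option autoImplicit false

namespace Pool.Agent.R109.OC.C

open Pool.Agent.R109.OC

lemma OrtD.symm' {K L : Ci} (h : OrtD K L) : OrtD L K := by
  unfold OrtD at *
  rw [norm_sub_rev, h]; ring

lemma DisD.symm' {K L : Ci} (h : DisD K L) : DisD L K := by
  unfold DisD at *
  rw [norm_sub_rev, abs_sub_comm, add_comm]
  exact h

/-- orthogonal or disjoint in metric form -/
def Rel (K L : Ci) : Prop := OrtD K L ∨ DisD K L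

lemma Rel.symm' {K L : Ci} (h : Rel K L) : Rel L K :=
  h.elim (fun h => Or.inl (OrtD.symm' h)) (fun h => Or.inr (DisD.symm' h))

lemma Rel.ne {K L : Ci} (hK : 0 < K.2) (h : Rel K L) : K ≠ L := by
  rintro rfl
  rcases h with h | h
  · unfold OrtD at h
    rw [sub_self, norm_zero] at h
    nlinarith
  · unfold DisD at h
    rw [sub_self, norm_zero, sub_self, abs_zero] at h
    rcases h with h | h <;> linarith

/-- the next index in `ℤ/d` -/
def nx (d m : ℕ) : ℕ := if m + 1 = d then 0 else m + 1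

lemma nx_lt {d m : ℕ} (hm : m < d) : nx d m < d := by unfold nx; split_ifs <;> omega
lemma nx_ne {d m : ℕ} (hd : 3 ≤ d) : nx d m ≠ m := by unfold nx; split_ifs <;> omega
lemma nx_nx {d m m' : ℕ} (hd : 3 ≤ d) (_ : m < d) (h1 : m' = nx d m) (h2 : m = nx d m') :
    False := by
  unfold nx at h1 h2; split_ifs at h1 h2 <;> omega

/-- relation on the indices: the ordered orthogonal pairs -/
def Pr (d : ℕ) (a b : ℕ × ℕ) : Prop :=
  (a.1 = b.1 ∧ a.2 < d ∧ b.2 = nx d a.2) ∨ (b.1 = a.1 + 1 ∧ a.2 = b.2 ∧ a.2 < d) ∨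
    (b.1 = a.1 + 1 ∧ b.2 < d ∧ a.2 = nx d b.2) ∨ (a.1 = b.1 ∧ a.2 = d ∧ b.2 < d)

lemma Pr_asymm {d : ℕ} (hd : 3 ≤ d) {a b : ℕ × ℕ} (h1 : Pr d a b) (h2 : Pr d b a) : False := by
  rcases h1 with ⟨u1, u2, u3⟩ | ⟨u1, u2, u3⟩ | ⟨u1, u2, u3⟩ | ⟨u1, u2, u3⟩ <;>
  rcases h2 with ⟨v1, v2, v3⟩ | ⟨v1, v2, v3⟩ | ⟨v1, v2, v3⟩ | ⟨v1, v2, v3⟩ <;>
  first
    | omega
    | exact nx_nx hd u2 u3 v3
    | (have := nx_lt u2; omega)
    | (have := nx_lt v2; omega)

open Finset in
/-- the index set of the pairs is large -/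
lemma card_idx (d k : ℕ) (hd : 3 ≤ d) (hk : 1 ≤ k) (E : Finset ((ℕ × ℕ) × (ℕ × ℕ)))
    (hE : ∀ a b : ℕ × ℕ, a.1 < k → a.2 ≤ d → b.1 < k → b.2 ≤ d → Pr d a b → (a, b) ∈ E) :
    4 * d * k - 2 * d ≤ E.card := by
  classical
  let E0 : Finset ((ℕ × ℕ) × (ℕ × ℕ)) :=
    (range k ×ˢ range d).image (fun p => ((p.1, p.2), (p.1, nx d p.2)))
  let E1 : Finset ((ℕ × ℕ) × (ℕ × ℕ)) :=
    (range (k - 1) ×ˢ range d).image (fun p => ((p.1, p.2), (p.1 + 1, p.2)))
  let E2 : Finset ((ℕ × ℕ) × (ℕ × ℕ)) :=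
    (range (k - 1) ×ˢ range d).image (fun p => ((p.1, nx d p.2), (p.1 + 1, p.2)))
  let E3 : Finset ((ℕ × ℕ) × (ℕ × ℕ)) :=
    (range k ×ˢ range d).image (fun p => ((p.1, d), (p.1, p.2)))
  have c0 : E0.card = k * d := by
    rw [card_image_of_injective, card_product, card_range, card_range]
    rintro ⟨a, b⟩ ⟨a', b'⟩ h
    simp only [Prod.mk.injEq] at h
    ext <;> simp [h.1.1, h.1.2]
  have c1 : E1.card = (k - 1) * d := by
    rw [card_image_of_injective, card_product, card_range, card_range]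
    rintro ⟨a, b⟩ ⟨a', b'⟩ h
    simp only [Prod.mk.injEq] at h
    ext <;> simp [h.1.1, h.1.2]
  have c2 : E2.card = (k - 1) * d := by
    rw [card_image_of_injective, card_product, card_range, card_range]
    rintro ⟨a, b⟩ ⟨a', b'⟩ h
    simp only [Prod.mk.injEq] at h
    ext <;> simp [h.1.1, h.2.2]
  have c3 : E3.card = k * d := by
    rw [card_image_of_injective, card_product, card_range, card_range]
    rintro ⟨a, b⟩ ⟨a', b'⟩ h
    simp only [Prod.mk.injEq] at h
    ext <;> simp [h.1.1, h.2.2]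
  have m0 : ∀ e ∈ E0, e.1.1 = e.2.1 ∧ e.1.2 < d ∧ e.1.1 < k ∧ e.2.2 = nx d e.1.2 := by
    intro e he
    simp only [E0, mem_image, mem_product, mem_range] at he
    obtain ⟨p, ⟨h1, h2⟩, rfl⟩ := he
    exact ⟨rfl, h2, h1, rfl⟩
  have m1 : ∀ e ∈ E1, e.2.1 = e.1.1 + 1 ∧ e.1.2 < d ∧ e.1.1 < k - 1 ∧ e.2.2 = e.1.2 := by
    intro e he
    simp only [E1, mem_image, mem_product, mem_range] at he
    obtain ⟨p, ⟨h1, h2⟩, rfl⟩ := he
    exact ⟨rfl, h2, h1, rfl⟩
  have m2 : ∀ e ∈ E2, e.2.1 = e.1.1 + 1 ∧ e.2.2 < d ∧ e.1.1 < k - 1 ∧ e.1.2 = nx d e.2.2 := by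
    intro e he
    simp only [E2, mem_image, mem_product, mem_range] at he
    obtain ⟨p, ⟨h1, h2⟩, rfl⟩ := he
    exact ⟨rfl, h2, h1, rfl⟩
  have m3 : ∀ e ∈ E3, e.1.1 = e.2.1 ∧ e.2.2 < d ∧ e.1.1 < k ∧ e.1.2 = d := by
    intro e he
    simp only [E3, mem_image, mem_product, mem_range] at he
    obtain ⟨p, ⟨h1, h2⟩, rfl⟩ := he
    exact ⟨rfl, h2, h1, rfl⟩
  have d01 : Disjoint E0 E1 := disjoint_left.2 fun e h h' => by
    have := m0 e h; have := m1 e h'; omega
  have d2 : Disjoint (E0 ∪ E1) E2 := disjoint_left.2 fun e h h' => by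
    have b := m2 e h'
    rcases mem_union.1 h with h | h
    · have := m0 e h; omega
    · have a := m1 e h
      exact nx_ne (m := e.2.2) hd (by rw [← b.2.2.2, a.2.2.2])
  have d3 : Disjoint (E0 ∪ E1 ∪ E2) E3 := disjoint_left.2 fun e h h' => by
    have b := m3 e h'
    rcases mem_union.1 h with h | h
    · rcases mem_union.1 h with h | h
      · have := m0 e h; omega
      · have := m1 e h; omega
    · have := m2 e h; omega
  have hsub : E0 ∪ E1 ∪ E2 ∪ E3 ⊆ E := by
    intro e he
    rcases mem_union.1 he with he | he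
    · rcases mem_union.1 he with he | he
      · rcases mem_union.1 he with he | he
        · obtain ⟨h1, h2, h3, h4⟩ := m0 e he
          have := nx_lt h2
          exact hE e.1 e.2 h3 h2.le (by omega) (by omega) (Or.inl ⟨h1, h2, h4⟩)
        · obtain ⟨h1, h2, h3, h4⟩ := m1 e he
          exact hE e.1 e.2 (by omega) h2.le (by omega) (by omega) (Or.inr (Or.inl ⟨h1, h4.symm, h2⟩))
      · obtain ⟨h1, h2, h3, h4⟩ := m2 e he
        have := nx_lt h2
        exact hE e.1 e.2 (by omega) (by omega) (by omega) (by omega)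
          (Or.inr (Or.inr (Or.inl ⟨h1, h2, h4⟩)))
    · obtain ⟨h1, h2, h3, h4⟩ := m3 e he
      exact hE e.1 e.2 h3 (by omega) (by omega) (by omega) (Or.inr (Or.inr (Or.inr ⟨h1, h4, h2⟩)))
  have hc := card_le_card hsub
  rw [card_union_of_disjoint d3, card_union_of_disjoint d2, card_union_of_disjoint d01, c0, c1, c2,
    c3] at hc
  obtain ⟨k', rfl⟩ : ∃ k', k = k' + 1 := ⟨k - 1, by omega⟩
  rw [Nat.add_sub_cancel] at hc
  have e1 : 4 * d * (k' + 1) - 2 * d = (k' + 1) * d + k' * d + k' * d + (k' + 1) * d := by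
    have : 4 * d * (k' + 1) = (k' + 1) * d + k' * d + k' * d + (k' + 1) * d + 2 * d := by ring
    omega
  rw [e1]; exact hc

/-- the circle with index `(j, m)`; `m = d` is the central one -/
noncomputable def F (d : ℕ) (s l : ℝ) (a : ℕ × ℕ) : Ci :=
  if a.2 = d then cent d l a.1 else ring d s l a.1 a.2

open Classical in
theorem main (hO : S_O) (hP : S_P) (hG : S_G) : S_C := by
  intro d k hd hk
  obtain ⟨s, l, hs, hl, hc, g1, g2, g3, g4, g5, g6, g7, g8, g9, g10⟩ := hG d hd
  have hl0 : 0 < l := by linarith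
  have hpos : ∀ a, 0 < (F d s l a).2 := by
    intro a
    unfold F
    split_ifs
    · exact mul_pos (Real.sqrt_pos.2 hc) (pow_pos hl0 _)
    · exact mul_pos (mul_pos (by positivity) hs) (pow_pos hl0 _)
  have hnx : ∀ j m, ring d s l j (nx d m) = ring d s l j (m + 1) := by
    intro j m
    unfold nx
    split_ifs with h
    · rw [h]
      have := g1 j 0
      rw [zero_add] at this
      exact this.symm
    · rfl
  -- the ordered pairs are orthogonal
  have hort : ∀ a b, a.2 ≤ d → b.2 ≤ d → Pr d a b → OrtD (F d s l a) (F d s l b) := by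
    rintro ⟨j, m⟩ ⟨j', m'⟩ ha hb h
    simp only at ha hb
    unfold Pr at h
    simp only at h
    unfold F
    simp only
    rcases h with ⟨rfl, h2, h3⟩ | ⟨rfl, rfl, h3⟩ | ⟨rfl, h2, h3⟩ | ⟨rfl, h2, h3⟩
    · have := nx_lt h2
      rw [if_neg (by omega), if_neg (by omega), h3, hnx]
      exact g2 j m
    · rw [if_neg (by omega), if_neg (by omega)]
      exact g3 j m
    · have := nx_lt h2
      rw [if_neg (by omega), if_neg (by omega), h3, hnx]
      exact g4 j m'
    · rw [if_pos h2, if_neg (by omega)]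
      exact g8 j m'
  -- any two different circles
  have hrel : ∀ a b : ℕ × ℕ, a.2 ≤ d → b.2 ≤ d → a ≠ b → Rel (F d s l a) (F d s l b) := by
    -- first the case of the same ring
    have r1 : ∀ j m m', m < d → m' < d → m < m' → Rel (ring d s l j m) (ring d s l j m') := by
      intro j m m' hm hm' h
      rcases Nat.lt_or_ge (m + 1) m' with h1 | h1
      · by_cases h2 : m = 0 ∧ m' = d - 1
        · left
          apply OrtD.symm'
          have h3 := g2 j m'
          have h4 : ring d s l j (m' + 1) = ring d s l j m := by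
            have h5 := g1 j 0
            rw [zero_add] at h5
            rw [h2.1, h2.2, ← h5]
            congr 1; omega
          rwa [h4] at h3
        · right
          exact g5 j m m' hm hm' h1 h2
      · left
        obtain rfl : m' = m + 1 := by omega
        exact g2 j m
    have r2 : ∀ j j' m m', m < d → m' < d → j < j' →
        Rel (ring d s l j m) (ring d s l j' m') := by
      intro j j' m m' hm hm' h
      rcases Nat.lt_or_ge (j + 1) j' with h1 | h1
      · right
        obtain ⟨i, rfl⟩ := Nat.exists_eq_add_of_le h1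
        have := g7 j (i + 2) m m' (by omega)
        rw [show j + 1 + 1 + i = j + (i + 2) by ring]
        exact this
      · obtain rfl : j' = j + 1 := by omega
        by_cases h2 : m = m'
        · left; rw [h2]; exact g3 j m'
        · by_cases h3 : m = m' + 1
          · left; rw [h3]; exact g4 j m'
          · by_cases h4 : m = 0 ∧ m' = d - 1
            · left
              have h5 := g4 j m'
              have h6 : ring d s l j (m' + 1) = ring d s l j m := by
                have h7 := g1 j 0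
                rw [zero_add] at h7
                rw [h4.1, h4.2, ← h7]
                congr 1; omega
              rwa [h6] at h5
            · right
              exact g6 j m m' hm hm' h2 h3 h4
    have r3 : ∀ j j' m, Rel (cent d l j) (ring d s l j' m) := by
      intro j j' m
      by_cases h : j = j'
      · left; rw [h]; exact g8 j' m
      · right; exact g9 j j' m h
    rintro ⟨j, m⟩ ⟨j', m'⟩ ha hb hab
    simp only at ha hb
    unfold F
    simp only
    by_cases hm : m = d
    · by_cases hm' : m' = d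
      · rw [if_pos hm, if_pos hm']
        right
        apply g10
        rintro rfl
        exact hab (by rw [hm, hm'])
      · rw [if_pos hm, if_neg hm']
        exact r3 j j' m'
    · by_cases hm' : m' = d
      · rw [if_neg hm, if_pos hm']
        exact (r3 j' j m).symm'
      · rw [if_neg hm, if_neg hm']
        have h1 : m < d := by omega
        have h2 : m' < d := by omega
        rcases Nat.lt_trichotomy j j' with h | h | h
        · exact r2 j j' m m' h1 h2 h
        · subst h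
          rcases Nat.lt_trichotomy m m' with h3 | h3 | h3
          · exact r1 j m m' h1 h2 h3
          · exact absurd (by rw [h3]) hab
          · exact (r1 j m' m h2 h1 h3).symm'
        · exact (r2 j' j m' m h2 h1 h).symm'
  have hinj : ∀ a b : ℕ × ℕ, a.2 ≤ d → b.2 ≤ d → F d s l a = F d s l b → a = b := by
    intro a b ha hb h
    by_contra hab
    exact (hrel a b ha hb hab).ne (hpos a) h
  let S : Finset (ℕ × ℕ) := Finset.range k ×ˢ Finset.range (d + 1)
  have hS : ∀ {a : ℕ × ℕ}, a ∈ S ↔ a.1 < k ∧ a.2 ≤ d := by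
    intro a
    simp only [S, Finset.mem_product, Finset.mem_range]
    omega
  have hArr : Arr (S.image (F d s l)) := by
    refine ⟨?_, ?_⟩
    · intro K hK
      obtain ⟨a, _, rfl⟩ := Finset.mem_image.1 hK
      exact hpos a
    · intro K hK L hL hKL
      obtain ⟨a, ha, rfl⟩ := Finset.mem_image.1 hK
      obtain ⟨b, hb, rfl⟩ := Finset.mem_image.1 hL
      have hab : a ≠ b := fun h => hKL (by rw [h])
      rcases hrel a b (hS.1 ha).2 (hS.1 hb).2 hab with h | h
      · exact Or.inr ((hO _ _ (hpos a) (hpos b)).1 h)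
      · exact Or.inl ((hO _ _ (hpos a) (hpos b)).2 h)
  have hcard : (S.image (F d s l)).card = k * (d + 1) := by
    rw [Finset.card_image_of_injOn, Finset.card_product, Finset.card_range, Finset.card_range]
    intro a ha b hb h
    exact hinj a b (hS.1 ha).2 (hS.1 hb).2 h
  refine ⟨S.image (F d s l), hArr, hcard, ?_⟩
  let Ei : Finset ((ℕ × ℕ) × (ℕ × ℕ)) := (S ×ˢ S).filter (fun e => Pr d e.1 e.2)
  have hEi : ∀ {e}, e ∈ Ei ↔ (e.1 ∈ S ∧ e.2 ∈ S) ∧ Pr d e.1 e.2 := by
    intro e
    simp only [Ei, Finset.mem_filter, Finset.mem_product]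
  let E : Finset (Ci × Ci) := Ei.image (fun e => (F d s l e.1, F d s l e.2))
  have hEcard : E.card = Ei.card := by
    apply Finset.card_image_of_injOn
    intro e he e' he' h
    have h1 := (hEi.1 he).1
    have h2 := (hEi.1 he').1
    simp only [Prod.mk.injEq] at h
    exact Prod.ext (hinj _ _ (hS.1 h1.1).2 (hS.1 h2.1).2 h.1)
      (hinj _ _ (hS.1 h1.2).2 (hS.1 h2.2).2 h.2)
  have hEc := card_idx d k (by omega) hk Ei (by
    intro a b h1 h2 h3 h4 h5
    exact hEi.2 ⟨⟨hS.2 ⟨h1, h2⟩, hS.2 ⟨h3, h4⟩⟩, h5⟩)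
  obtain ⟨P, p1, p2⟩ := hP (S.image (F d s l)) E hArr (by
    intro e he
    obtain ⟨x, hx, rfl⟩ := Finset.mem_image.1 he
    obtain ⟨⟨h1, h2⟩, h3⟩ := hEi.1 hx
    have ho := hort x.1 x.2 (hS.1 h1).2 (hS.1 h2).2 h3
    refine ⟨Finset.mem_image_of_mem _ h1, Finset.mem_image_of_mem _ h2, ?_, ?_, ?_⟩
    · exact Rel.ne (hpos _) (Or.inl ho)
    · exact (hO _ _ (hpos _) (hpos _)).1 ho
    · intro hrev
      obtain ⟨y, hy, hxy⟩ := Finset.mem_image.1 hrev
      obtain ⟨⟨h4, h5⟩, h6⟩ := hEi.1 hy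
      simp only [Prod.mk.injEq] at hxy
      have e1 := hinj _ _ (hS.1 h4).2 (hS.1 h2).2 hxy.1
      have e2 := hinj _ _ (hS.1 h5).2 (hS.1 h1).2 hxy.2
      rw [e1, e2] at h6
      exact Pr_asymm (by omega) h3 h6)
  refine ⟨P, p1, ?_⟩
  rw [p2, hEcard]
  have : 8 * d * k - 4 * d = 2 * (4 * d * k - 2 * d) := by
    rw [Nat.mul_sub]; ring_nf
  omega

end Pool.Agent.R109.OC.C
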