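import Pool.Agent.R109.OC.Defs

/-! # The asymptotic lower bound -/

set_option autoImplicit false

namespace Pool.Agent.R109.OC.F

open Pool.Agent.R109.OC Set Filter Topology

/-- concentric circles -/
theorem trivialArr (n : ℕ) : ∃ A : Finset Ci, Arr A ∧ A.card = n := by
  classical
  refine ⟨(Finset.range n).image (fun i : ℕ => ((0 : ℂ), ((i : ℝ) + 1))), ?_, ?_⟩
  · constructor
    · intro K hK
      rw [Finset.mem_image] at hK
      obtain ⟨i, -, rfl⟩ := hK
      simp only
      positivity
    · intro K hK L hL hne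
      rw [Finset.mem_image] at hK hL
      obtain ⟨i, -, rfl⟩ := hK
      obtain ⟨j, -, rfl⟩ := hL
      left
      rw [Set.disjoint_left]
      intro z hz hz'
      apply hne
      have h1 : ‖z‖ = (i : ℝ) + 1 := by simpa [pts] using hz
      have h2 : ‖z‖ = (j : ℝ) + 1 := by simpa [pts] using hz'
      rw [← h1, ← h2]
  · rw [Finset.card_image_of_injective, Finset.card_range]
    intro i j h
    have h2 : (i : ℝ) + 1 = (j : ℝ) + 1 := congrArg Prod.snd h
    exact_mod_cast add_right_cancel h2

theorem main1 (hB : S_B) (hC : S_C) (n : ℕ) : ∃ A : Finset Ci, Arr A ∧ A.card = n ∧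
    ∃ F : Finset (Set ℂ), (∀ f ∈ F, f ∈ Faces A ∧ Tri A f) ∧
      32 / 9 * (n : ℝ) - 43 * Real.sqrt n ≤ F.card := by
  rcases lt_or_ge n 144 with hn | hn
  · obtain ⟨A, hA, hcard⟩ := trivialArr n
    refine ⟨A, hA, hcard, ∅, by simp, ?_⟩
    have h1 : Real.sqrt n ≤ 12 := by
      rw [Real.sqrt_le_left (by norm_num)]
      have : (n : ℝ) < 144 := by exact_mod_cast hn
      linarith
    have h2 : (n : ℝ) = Real.sqrt n * Real.sqrt n := (Real.mul_self_sqrt (by positivity)).symm
    have h3 : 0 ≤ Real.sqrt n := Real.sqrt_nonneg _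
    simp only [Finset.card_empty, Nat.cast_zero]
    nlinarith
  · set x := Real.sqrt n with hx
    have hn' : (144 : ℝ) ≤ n := by exact_mod_cast hn
    have hx12 : 12 ≤ x := by
      rw [hx]
      apply Real.le_sqrt_of_sq_le
      linarith
    have hxx : x * x = n := Real.mul_self_sqrt (by positivity)
    set d := ⌈x / 3⌉₊ + 1 with hd
    have hd1 : x / 3 + 1 ≤ d := by
      rw [hd]; push_cast
      have := Nat.le_ceil (x / 3)
      linarith
    have hd2 : (d : ℝ) < x / 3 + 2 := by
      rw [hd]; push_cast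
      have := Nat.ceil_lt_add_one (show 0 ≤ x / 3 by linarith)
      linarith
    have hd5 : 5 ≤ d := by
      have : (5 : ℝ) ≤ d := by linarith
      exact_mod_cast this
    obtain ⟨A0, hA0, hc0, P0, hP0, hP0c⟩ := hC d d hd5 (by omega)
    have hm : d * (d + 1) ≤ n := by
      have : ((d * (d + 1) : ℕ) : ℝ) ≤ n := by
        push_cast
        nlinarith
      exact_mod_cast this
    have hup : n ≤ 9 * d * d - 3 * d := by
      have h1 : 3 * d ≤ 9 * d * d := by nlinarith
      have : (n : ℝ) ≤ ((9 * d * d - 3 * d : ℕ) : ℝ) := by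
        rw [Nat.cast_sub h1]
        push_cast
        nlinarith
      exact_mod_cast this
    have hle : n - d * (d + 1) ≤ P0.card := by
      refine le_trans ?_ hP0c
      have h1 : 3 * d ≤ 9 * d * d := by nlinarith
      have h2 : 4 * d ≤ 8 * d * d := by nlinarith
      have h3 : d * (d + 1) = d * d + d := by ring
      have h4 : 9 * d * d = 9 * (d * d) := by ring
      have h5 : 8 * d * d = 8 * (d * d) := by ring
      omega
    obtain ⟨P, hP, hPc⟩ := Finset.exists_subset_card_eq hle
    obtain ⟨A', hA', hc', F, hFc, hF⟩ := hB A0 P hA0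
      (subset_trans (Finset.coe_subset.2 hP) hP0)
    refine ⟨A', hA', ?_, F, hF, ?_⟩
    · rw [hc', hc0, hPc]; omega
    · rw [hFc, hPc]
      push_cast [Nat.cast_sub hm]
      nlinarith

theorem main (hB : S_B) (hC : S_C) : S_F := by
  refine ⟨⟨43, main1 hB hC⟩, 6000, fun n hn => ?_⟩
  obtain ⟨A, hA, hc, F, hF, hle⟩ := main1 hB hC n
  refine ⟨A, hA, hc, F, hF, ?_⟩
  have hn' : (6000 : ℝ) ≤ n := by exact_mod_cast hn
  set x := Real.sqrt n with hx
  have hxx : x * x = n := Real.mul_self_sqrt (by positivity)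
  have hx12 : (77.45 : ℝ) ≤ x := by
    rw [hx]
    apply Real.le_sqrt_of_sq_le
    norm_num
    linarith
  have h1 : 3 * (n : ℝ) - 3 < F.card := by
    refine lt_of_lt_of_le ?_ hle
    nlinarith
  have h2 : ((3 * n - 3 : ℕ) : ℝ) < F.card := by
    rw [Nat.cast_sub (by omega)]
    push_cast
    exact h1
  exact_mod_cast h2

end Pool.Agent.R109.OC.F
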