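import Pool.Agent.R109.OC.Defs

/-!
# Project OC, piece G: the geometry of the ring arrangement
-/

set_option autoImplicit false

namespace Pool.Agent.R109.OC.G

open Pool.Agent.R109.OC Real

/-- distance of two points in polar form -/
lemma dist_sq (x y α β : ℝ) :
    ‖((x : ℝ) : ℂ) * Complex.exp (Complex.I * (α : ℂ)) -
      ((y : ℝ) : ℂ) * Complex.exp (Complex.I * (β : ℂ))‖ ^ 2 =
      x ^ 2 + y ^ 2 - 2 * x * y * Real.cos (α - β) := by
  rw [Complex.sq_norm, Complex.normSq_apply]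
  have e1 : ∀ a : ℝ, (Complex.exp (Complex.I * (a : ℂ))).re = Real.cos a := by
    intro a; rw [mul_comm]; exact Complex.exp_ofReal_mul_I_re a
  have e2 : ∀ a : ℝ, (Complex.exp (Complex.I * (a : ℂ))).im = Real.sin a := by
    intro a; rw [mul_comm]; exact Complex.exp_ofReal_mul_I_im a
  simp only [Complex.sub_re, Complex.sub_im, Complex.mul_re, Complex.mul_im, Complex.ofReal_re,
    Complex.ofReal_im, e1, e2, zero_mul, sub_zero, add_zero]
  rw [Real.cos_sub]
  nlinarith [Real.sin_sq_add_cos_sq α, Real.sin_sq_add_cos_sq β]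

lemma cos_le_of_mem (a x : ℝ) (ha : 0 ≤ a) (h1 : a ≤ x) (h2 : x ≤ 2 * π - a) :
    Real.cos x ≤ Real.cos a := by
  rcases le_total x π with h | h
  · exact Real.cos_le_cos_of_nonneg_of_le_pi ha h h1
  · have : Real.cos x = Real.cos (2 * π - x) := by
      rw [Real.cos_two_pi_sub]
    rw [this]
    exact Real.cos_le_cos_of_nonneg_of_le_pi ha (by linarith) (by linarith)

/-- the data of the construction -/
structure Dat (d : ℕ) (s c1 c2 l : ℝ) : Prop where
  s_pos : 0 < s
  c1_pos : 0 < c1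
  c2_pos : 0 < c2
  hs : s = Real.sin (π / d)
  hc1 : c1 = Real.cos (π / d)
  hc2 : c2 = Real.cos (2 * π / d)
  c1s : c1 ^ 2 = 1 - s ^ 2
  c2s : c2 = 1 - 2 * s ^ 2
  c1big : 1 / 2 < c1 ^ 2
  l_gt : 1 < l
  star : (1 + l ^ 2) * c2 = 2 * l * c1

lemma exists_dat (d : ℕ) (hd : 5 ≤ d) : ∃ s c1 c2 l : ℝ, Dat d s c1 c2 l := by
  have hd0 : (0 : ℝ) < d := by exact_mod_cast (by omega : 0 < d)
  have hd5 : (5 : ℝ) ≤ d := by exact_mod_cast hd
  have hpi := Real.pi_pos
  have hth0 : 0 < π / d := by positivity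
  have hth : π / d ≤ π / 5 := by
    apply div_le_div_of_nonneg_left hpi.le (by norm_num) hd5
  have hs : 0 < Real.sin (π / d) := Real.sin_pos_of_pos_of_lt_pi hth0 (by linarith)
  have h2 : 2 * π / d = 2 * (π / d) := by ring
  have hc1 : 0 < Real.cos (π / d) := Real.cos_pos_of_mem_Ioo ⟨by linarith, by linarith⟩
  have hc2 : 0 < Real.cos (2 * π / d) := by
    rw [h2]; exact Real.cos_pos_of_mem_Ioo ⟨by linarith, by linarith⟩
  have hsc := Real.sin_sq_add_cos_sq (π / d)
  have hdbl : Real.cos (2 * π / d) = 1 - 2 * Real.sin (π / d) ^ 2 := by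
    rw [h2, Real.cos_two_mul]; linarith
  set s := Real.sin (π / d) with hsdef
  set c1 := Real.cos (π / d) with hc1def
  set c2 := Real.cos (2 * π / d) with hc2def
  have hlt : c2 < c1 := by
    rw [hc2def, hc1def, h2]
    exact Real.cos_lt_cos_of_nonneg_of_le_pi hth0.le (by linarith) (by linarith)
  have hC : 1 < c1 / c2 := by rw [lt_div_iff₀ hc2]; linarith
  have hC2 : 0 < (c1 / c2) ^ 2 - 1 := by nlinarith
  refine ⟨s, c1, c2, c1 / c2 + √((c1 / c2) ^ 2 - 1), hs, hc1, hc2, hsdef, hc1def, hc2def,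
    by linarith, hdbl, by nlinarith, ?_, ?_⟩
  · have := Real.sqrt_nonneg ((c1 / c2) ^ 2 - 1)
    linarith
  · set r := √((c1 / c2) ^ 2 - 1) with hr
    have hr2 : r ^ 2 = (c1 / c2) ^ 2 - 1 := Real.sq_sqrt hC2.le
    have hc : c1 = (c1 / c2) * c2 := by field_simp
    set C := c1 / c2 with hCdef
    rw [hc]
    have : 1 + (C + r) ^ 2 = 2 * (C + r) * C := by nlinarith
    rw [this]; ring

section
variable {d : ℕ} {s c1 c2 l : ℝ}

lemma Dat.s2 (h : Dat d s c1 c2 l) : 0 < √2 * s ∧ √2 * s < 1 ∧ (√2 * s) ^ 2 = 2 * s ^ 2 := by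
  have h0 : 0 < √2 * s := mul_pos (by positivity) h.s_pos
  have h1 : (√2 * s) ^ 2 = 2 * s ^ 2 := by
    rw [mul_pow, Real.sq_sqrt (by norm_num)]
  refine ⟨h0, ?_, h1⟩
  have h2 : (√2 * s) ^ 2 < 1 := by
    rw [h1]; nlinarith [h.c1s, h.c1big]
  nlinarith

/-- the key inequality -/
lemma Dat.key (h : Dat d s c1 c2 l) : √2 * s * (l ^ 2 + 1) < l ^ 2 - 1 := by
  obtain ⟨_, h1, h2⟩ := h.s2
  have hl := h.l_gt
  have hl2 : 0 < l ^ 2 - 1 := by nlinarith
  set w := √2 * s with hw
  have hsq : (w * (l ^ 2 + 1)) ^ 2 < (l ^ 2 - 1) ^ 2 := by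
    have hc1 : 0 < c1 ^ 2 := by have := h.c1_pos; positivity
    have e1 : c1 ^ 2 * (l ^ 2 - 1) ^ 2 = (l ^ 2 + 1) ^ 2 * (c1 ^ 2 - c2 ^ 2) := by
      have hst := h.star
      have : (2 * l * c1) ^ 2 = ((1 + l ^ 2) * c2) ^ 2 := by rw [hst]
      nlinarith
    have e2 : 2 * s ^ 2 * c1 ^ 2 < c1 ^ 2 - c2 ^ 2 := by
      rw [h.c1s, h.c2s]
      have : 0 < s ^ 2 * (1 - 2 * s ^ 2) := by
        have h3 := h.c2_pos
        rw [h.c2s] at h3
        have := h.s_pos
        positivity
      nlinarith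
    have e3 : c1 ^ 2 * (w * (l ^ 2 + 1)) ^ 2 < c1 ^ 2 * (l ^ 2 - 1) ^ 2 := by
      rw [e1, mul_pow, h2]
      have h4 : 0 < (l ^ 2 + 1) ^ 2 := by positivity
      nlinarith [mul_lt_mul_of_pos_left e2 h4]
    exact lt_of_mul_lt_mul_left e3 hc1.le
  exact lt_of_pow_lt_pow_left₀ 2 hl2.le hsq

lemma Dat.key2 (h : Dat d s c1 c2 l) : 1 + √2 * s < (1 - √2 * s) * l ^ 2 := by
  have := h.key
  nlinarith

lemma ring_dist (j m j' m' : ℕ) :
    ‖(ring d s l j m).1 - (ring d s l j' m').1‖ ^ 2 =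
      (l ^ j) ^ 2 + (l ^ j') ^ 2 - 2 * l ^ j * l ^ j' *
        Real.cos (π * (2 * m + j) / d - π * (2 * m' + j') / d) := by
  unfold ring
  simp only
  have := dist_sq (l ^ j) (l ^ j') (π * (2 * m + j) / d) (π * (2 * m' + j') / d)
  simpa using this

lemma disD_of_sq {K L : Ci} (h0 : 0 ≤ K.2 + L.2) (h : (K.2 + L.2) ^ 2 < ‖K.1 - L.1‖ ^ 2) :
    DisD K L :=
  Or.inl (lt_of_pow_lt_pow_left₀ 2 (norm_nonneg _) h)

end

theorem main : S_G := by
  intro d hd
  obtain ⟨s, c1, c2, l, h⟩ := exists_dat d hd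
  have hd0 : (0 : ℝ) < d := by exact_mod_cast (by omega : 0 < d)
  have hd5 : (5 : ℝ) ≤ d := by exact_mod_cast hd
  have hpi := Real.pi_pos
  have hl := h.l_gt
  have hl0 : 0 < l := by linarith
  obtain ⟨w0, w1, w2⟩ := h.s2
  have hk2 := h.key2
  have hlp : ∀ j : ℕ, 0 < l ^ j := fun j => pow_pos hl0 j
  have hth0 : 0 < π / d := by positivity
  have hth : π / d ≤ π / 5 := by
    apply div_le_div_of_nonneg_left hpi.le (by norm_num) hd5
  -- norm of the centre of a ring circle
  have hnorm : ∀ j m, ‖(ring d s l j m).1‖ = l ^ j := by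
    intro j m
    unfold ring
    simp only
    rw [norm_mul, mul_comm Complex.I, Complex.norm_exp_ofReal_mul_I, mul_one]
    rw [Complex.norm_real, Real.norm_eq_abs, abs_of_pos (hlp j)]
  have hsqrt : √(Real.cos (2 * π / d)) ^ 2 = c2 := by
    rw [← h.hc2]; exact Real.sq_sqrt h.c2_pos.le
  have hsq0 : 0 < √(Real.cos (2 * π / d)) := by
    rw [← h.hc2]; exact Real.sqrt_pos.2 h.c2_pos
  -- `l √c2 > 1 + √2 s` and `l (1 - √2 s) > √c2`
  have hA : 1 + √2 * s < √(Real.cos (2 * π / d)) * l := by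
    have : (1 + √2 * s) ^ 2 < (√(Real.cos (2 * π / d)) * l) ^ 2 := by
      rw [mul_pow, hsqrt, h.c2s]
      have h1 : (1 : ℝ) - 2 * s ^ 2 = (1 + √2 * s) * (1 - √2 * s) := by nlinarith
      rw [h1]
      nlinarith
    exact lt_of_pow_lt_pow_left₀ 2 (by positivity) this
  have hB : √(Real.cos (2 * π / d)) < (1 - √2 * s) * l := by
    have : √(Real.cos (2 * π / d)) ^ 2 < ((1 - √2 * s) * l) ^ 2 := by
      rw [mul_pow, hsqrt, h.c2s]
      have h1 : (1 : ℝ) - 2 * s ^ 2 = (1 + √2 * s) * (1 - √2 * s) := by nlinarith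
      rw [h1]
      have h2 : 0 < 1 - √2 * s := by linarith
      nlinarith
    exact lt_of_pow_lt_pow_left₀ 2 (by nlinarith) this
  refine ⟨s, l, h.s_pos, hl, by rw [← h.hc2]; exact h.c2_pos, ?_, ?_, ?_, ?_, ?_, ?_, ?_, ?_, ?_, ?_⟩
  · -- periodicity
    intro j m
    unfold ring
    congr 2
    have : Complex.I * ((π * (2 * ((m + d : ℕ) : ℝ) + j) / d : ℝ) : ℂ) =
        Complex.I * ((π * (2 * (m : ℝ) + j) / d : ℝ) : ℂ) + 2 * π * Complex.I := by
      have e : (π * (2 * ((m + d : ℕ) : ℝ) + j) / d : ℝ) = π * (2 * (m : ℝ) + j) / d + 2 * π := by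
        push_cast
        field_simp
        ring
      rw [e]
      push_cast
      ring
    rw [this, Complex.exp_periodic]
  · intro j m
    unfold OrtD
    rw [ring_dist]
    have e : π * (2 * (m : ℝ) + j) / d - π * (2 * ((m + 1 : ℕ) : ℝ) + j) / d = -(2 * π / d) := by
      push_cast; field_simp; ring
    rw [e, Real.cos_neg, ← h.hc2, h.c2s]
    simp only [ring]
    have := hlp j
    rw [mul_pow, w2]
    ring
  · intro j m
    unfold OrtD
    rw [ring_dist]
    have e : π * (2 * (m : ℝ) + j) / d - π * (2 * (m : ℝ) + ((j + 1 : ℕ) : ℝ)) / d = -(π / d) := by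
      push_cast; field_simp; ring
    rw [e, Real.cos_neg, ← h.hc1]
    simp only [ring]
    rw [mul_pow (√2 * s) (l ^ j), mul_pow (√2 * s) (l ^ (j + 1)), w2, pow_succ l j]
    have := h.star
    rw [h.c2s] at this
    linear_combination (l ^ j) ^ 2 * this
  · intro j m
    unfold OrtD
    rw [ring_dist]
    have e : π * (2 * ((m + 1 : ℕ) : ℝ) + j) / d - π * (2 * (m : ℝ) + ((j + 1 : ℕ) : ℝ)) / d =
        π / d := by
      push_cast; field_simp; ring
    rw [e, ← h.hc1]
    simp only [ring]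
    rw [mul_pow (√2 * s) (l ^ j), mul_pow (√2 * s) (l ^ (j + 1)), w2, pow_succ l j]
    have := h.star
    rw [h.c2s] at this
    linear_combination (l ^ j) ^ 2 * this
  · -- same ring
    intro j m m' hm hm' h1 h2
    apply disD_of_sq
    · simp only [ring]
      have := hlp j
      positivity
    rw [ring_dist]
    have hmr : (m : ℝ) + 2 ≤ m' := by exact_mod_cast h1
    have hm2 : (m' : ℝ) - m ≤ d - 2 := by
      have h3 : m' + 2 ≤ d + m := by
        by_contra hcon
        exact h2 ⟨by omega, by omega⟩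
      have : (m' : ℝ) + 2 ≤ d + m := by exact_mod_cast h3
      linarith
    have e : π * (2 * (m : ℝ) + j) / d - π * (2 * (m' : ℝ) + j) / d =
        -(2 * (π / d) * (m' - m)) := by
      field_simp; ring
    rw [e, Real.cos_neg]
    have hcos : Real.cos (2 * (π / d) * (m' - m)) ≤ Real.cos (4 * (π / d)) := by
      apply cos_le_of_mem _ _ (by positivity)
      · nlinarith
      · have : π / d * d = π := by field_simp
        nlinarith
    have h4 : Real.cos (4 * (π / d)) = 2 * (1 - 2 * s ^ 2) ^ 2 - 1 := by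
      have : 4 * (π / d) = 2 * (2 * π / d) := by ring
      rw [this, Real.cos_two_mul, ← h.hc2, h.c2s]
    simp only [ring]
    have hx := hlp j
    have hx2 : 0 < (l ^ j) ^ 2 := by positivity
    have h5 : (√2 * s * l ^ j + √2 * s * l ^ j) ^ 2 = 8 * s ^ 2 * (l ^ j) ^ 2 := by
      have : (√2 * s * l ^ j + √2 * s * l ^ j) ^ 2 = 4 * (√2 * s) ^ 2 * (l ^ j) ^ 2 := by ring
      rw [this, w2]; ring
    rw [h5]
    rw [h4] at hcos
    have hs2 : 0 < s ^ 2 := by have := h.s_pos; positivity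
    have h6 : 0 < 1 - 2 * s ^ 2 := by rw [← h.c2s]; exact h.c2_pos
    have h7 : 4 * s ^ 2 < 1 - Real.cos (2 * (π / d) * (m' - m)) := by
      nlinarith [h.c1s, h.c1big, mul_pos hs2 h6]
    nlinarith [mul_lt_mul_of_pos_left h7 hx2]
  · -- consecutive rings
    intro j m m' hm hm' h1 h2 h3
    apply disD_of_sq
    · simp only [ring]
      have := hlp j
      have := hlp (j + 1)
      positivity
    rw [ring_dist]
    have e : π * (2 * (m : ℝ) + j) / d - π * (2 * (m' : ℝ) + ((j + 1 : ℕ) : ℝ)) / d =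
        -((π / d) * (2 * ((m' : ℝ) - m) + 1)) := by
      push_cast; field_simp; ring
    rw [e, Real.cos_neg]
    have hcos : Real.cos ((π / d) * (2 * ((m' : ℝ) - m) + 1)) ≤ Real.cos (3 * (π / d)) := by
      have hdd : π / d * d = π := by field_simp
      rcases Nat.lt_or_gt_of_ne h1 with h4 | h4
      · apply cos_le_of_mem _ _ (by positivity)
        · have : (m : ℝ) + 1 ≤ m' := by exact_mod_cast h4
          have hp := mul_nonneg hth0.le (by linarith : (0 : ℝ) ≤ m' - m - 1)
          linarith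
        · have h5 : m' + 2 ≤ d + m := by
            by_contra hcon
            exact h3 ⟨by omega, by omega⟩
          have : (m' : ℝ) + 2 ≤ d + m := by exact_mod_cast h5
          have hp := mul_nonneg hth0.le (by linarith : (0 : ℝ) ≤ d + m - m' - 2)
          have hp2 : π / d * (d + m - m' - 2) = π / d * d + π / d * (m - m' - 2) := by ring
          rw [hp2, hdd] at hp
          linarith
      · rw [← Real.cos_neg]
        apply cos_le_of_mem _ _ (by positivity)
        · have h5 : m' + 2 ≤ m := by omega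
          have : (m' : ℝ) + 2 ≤ m := by exact_mod_cast h5
          have hp := mul_nonneg hth0.le (by linarith : (0 : ℝ) ≤ m - m' - 2)
          linarith
        · have h5 : m + 1 ≤ d := by omega
          have : (m : ℝ) + 1 ≤ d := by exact_mod_cast h5
          have h6 : (0 : ℝ) ≤ m' := by positivity
          have hp := mul_nonneg hth0.le (by linarith : (0 : ℝ) ≤ d - m + m' - 1)
          have hp2 : π / d * (d - m + m' - 1) = π / d * d + π / d * (m' - m - 1) := by ring
          rw [hp2, hdd] at hp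
          linarith
    have h4 : Real.cos (3 * (π / d)) = 4 * c1 ^ 3 - 3 * c1 := by
      rw [Real.cos_three_mul, ← h.hc1]
    simp only [ring]
    have hx := hlp j
    have hs2 : 0 < s ^ 2 := by have := h.s_pos; positivity
    rw [pow_succ l j]
    set x := l ^ j with hxdef
    have h5 : (√2 * s * x + √2 * s * (x * l)) ^ 2 = 2 * s ^ 2 * x ^ 2 * (1 + l) ^ 2 := by
      have : (√2 * s * x + √2 * s * (x * l)) ^ 2 = (√2 * s) ^ 2 * (x ^ 2 * (1 + l) ^ 2) := by ring
      rw [this, w2]; ring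
    rw [h5]
    have hst := h.star
    rw [h.c2s] at hst
    have h7 : 2 * s ^ 2 < c1 - Real.cos ((π / d) * (2 * ((m' : ℝ) - m) + 1)) := by
      rw [h4] at hcos
      have hc1 : 1 / 2 < c1 := by
        have := h.c1big
        have := h.c1_pos
        nlinarith
      have h8 : c1 - (4 * c1 ^ 3 - 3 * c1) = 4 * c1 * s ^ 2 := by
        have := h.c1s
        have h9 : s ^ 2 = 1 - c1 ^ 2 := by linarith
        rw [h9]; ring
      nlinarith [mul_pos hs2 (by linarith : 0 < c1 - 1 / 2)]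
    have hxl : 0 < 2 * x ^ 2 * l := by positivity
    nlinarith [mul_lt_mul_of_pos_left h7 hxl, mul_pos hx hx]
  · -- far rings
    intro j i m m' hi
    left
    have h1 : l ^ (j + i) - l ^ j ≤ ‖(ring d s l j m).1 - (ring d s l (j + i) m').1‖ := by
      have := norm_sub_norm_le (ring d s l (j + i) m').1 (ring d s l j m).1
      rw [hnorm, hnorm] at this
      rwa [norm_sub_rev]
    refine lt_of_lt_of_le ?_ h1
    simp only [ring]
    have hx := hlp j
    rw [pow_add]
    have h2 : l ^ 2 ≤ l ^ i := pow_le_pow_right₀ hl.le hi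
    have h3 : 1 + √2 * s < (1 - √2 * s) * l ^ i := by
      have : (1 - √2 * s) * l ^ 2 ≤ (1 - √2 * s) * l ^ i :=
        mul_le_mul_of_nonneg_left h2 (by linarith)
      linarith
    nlinarith [mul_lt_mul_of_pos_left h3 hx]
  · intro j m
    unfold OrtD
    have h1 : ‖(cent d l j).1 - (ring d s l j m).1‖ = l ^ j := by
      rw [show (cent d l j).1 = 0 from rfl, zero_sub, norm_neg, hnorm]
    rw [h1]
    simp only [cent, ring]
    rw [mul_pow, mul_pow, hsqrt, w2, h.c2s]
    ring
  · intro j j' m hj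
    have h1 : ‖(cent d l j).1 - (ring d s l j' m).1‖ = l ^ j' := by
      rw [show (cent d l j).1 = 0 from rfl, zero_sub, norm_neg, hnorm]
    rcases Nat.lt_or_gt_of_ne hj with h2 | h2
    · left
      rw [h1]
      simp only [cent, ring]
      obtain ⟨i, rfl⟩ := Nat.exists_eq_add_of_lt h2
      have hx := hlp j
      have h3 : l ≤ l ^ (i + 1) := by
        calc l = l ^ 1 := (pow_one l).symm
          _ ≤ l ^ (i + 1) := pow_le_pow_right₀ hl.le (by omega)
      have h4 : √(Real.cos (2 * π / d)) < (1 - √2 * s) * l ^ (i + 1) := by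
        have : (1 - √2 * s) * l ≤ (1 - √2 * s) * l ^ (i + 1) :=
          mul_le_mul_of_nonneg_left h3 (by linarith)
        linarith
      have h5 : l ^ (j + i + 1) = l ^ j * l ^ (i + 1) := by rw [← pow_add]; congr 1
      rw [h5]
      nlinarith [mul_lt_mul_of_pos_left h4 hx]
    · right
      rw [h1]
      simp only [cent, ring]
      obtain ⟨i, rfl⟩ := Nat.exists_eq_add_of_lt h2
      have hx := hlp j'
      have h3 : l ≤ l ^ (i + 1) := by
        calc l = l ^ 1 := (pow_one l).symm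
          _ ≤ l ^ (i + 1) := pow_le_pow_right₀ hl.le (by omega)
      have h4 : 1 + √2 * s < √(Real.cos (2 * π / d)) * l ^ (i + 1) := by
        have : √(Real.cos (2 * π / d)) * l ≤ √(Real.cos (2 * π / d)) * l ^ (i + 1) :=
          mul_le_mul_of_nonneg_left h3 hsq0.le
        linarith
      have h5 : l ^ (j' + i + 1) = l ^ j' * l ^ (i + 1) := by rw [← pow_add]; congr 1
      rw [h5]
      refine lt_of_lt_of_le ?_ (le_abs_self _)
      nlinarith [mul_lt_mul_of_pos_left h4 hx]
  · intro j j' hj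
    right
    have h1 : ‖(cent d l j).1 - (cent d l j').1‖ = 0 := by simp [cent]
    rw [h1]
    apply abs_pos.2
    simp only [cent]
    rw [← mul_sub]
    apply mul_ne_zero hsq0.ne'
    intro h2
    apply hj
    exact (pow_right_injective₀ hl0 hl.ne') (by linarith : l ^ j = l ^ j')

end Pool.Agent.R109.OC.G
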