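import Mathlib
import Pool.Agent.R109.OC.Defs

/-!
# Project OC: pieces O, N, P (circle geometry)
-/

set_option autoImplicit false

open ComplexConjugate

namespace Pool.Agent.R109.OC.ONP

/-- membership in a circle in real coordinates -/
theorem mem_pts {K : Ci} (h : 0 ≤ K.2) (z : ℂ) :
    z ∈ pts K ↔ (z.re - K.1.re) ^ 2 + (z.im - K.1.im) ^ 2 = K.2 ^ 2 := by
  unfold pts
  rw [mem_sphere_iff_norm, ← Complex.sub_re, ← Complex.sub_im]
  have h1 : (z - K.1).re ^ 2 + (z - K.1).im ^ 2 = ‖z - K.1‖ ^ 2 := by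
    rw [Complex.sq_norm, Complex.normSq_apply]; ring
  rw [h1]
  constructor
  · intro h2; rw [h2]
  · intro h2
    exact (pow_left_inj₀ (norm_nonneg _) h two_ne_zero).1 h2

theorem re_conj (z a b : ℂ) : ((z - a) * conj (z - b)).re
    = (z.re - a.re) * (z.re - b.re) + (z.im - a.im) * (z.im - b.im) := by
  simp [Complex.mul_re]
  ring

theorem ortD_iff (K L : Ci) : OrtD K L ↔
    (K.1.re - L.1.re) ^ 2 + (K.1.im - L.1.im) ^ 2 = K.2 ^ 2 + L.2 ^ 2 := by
  unfold OrtD
  rw [Complex.sq_norm, Complex.normSq_apply, Complex.sub_re, Complex.sub_im]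
  constructor <;> intro h <;> linarith

theorem ort_of_ortD (K L : Ci) (hK : 0 < K.2) (hL : 0 < L.2) (h : OrtD K L) : Ort K L := by
  rw [ortD_iff] at h
  obtain ⟨⟨x1, y1⟩, r⟩ := K
  obtain ⟨⟨x2, y2⟩, s⟩ := L
  simp only at hK hL h
  have hD : 0 < r ^ 2 + s ^ 2 := by positivity
  set D : ℝ := r ^ 2 + s ^ 2 with hDdef
  have hD0 : D ≠ 0 := hD.ne'
  set p : ℝ := x2 - x1 with hp
  set q : ℝ := y2 - y1 with hq
  have hpq : p ^ 2 + q ^ 2 = D := by
    rw [← h, hp, hq]; ring
  have hset : pts ((⟨x1, y1⟩ : ℂ), r) ∩ pts ((⟨x2, y2⟩ : ℂ), s)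
      = {(⟨x1 + (r ^ 2 * p - r * s * q) / D, y1 + (r ^ 2 * q + r * s * p) / D⟩ : ℂ),
         (⟨x1 + (r ^ 2 * p + r * s * q) / D, y1 + (r ^ 2 * q - r * s * p) / D⟩ : ℂ)} := by
    ext z
    obtain ⟨x, y⟩ := z
    rw [Set.mem_inter_iff, mem_pts hK.le, mem_pts hL.le]
    simp only [Set.mem_insert_iff, Set.mem_singleton_iff, Complex.ext_iff]
    have hx2 : x2 = x1 + p := by rw [hp]; ring
    have hy2 : y2 = y1 + q := by rw [hq]; ring
    rw [hx2, hy2]
    constructor
    · rintro ⟨h1, h2⟩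
      -- coordinates u = x - x1, v = y - y1
      obtain ⟨u, hu⟩ : ∃ u, u = x - x1 := ⟨_, rfl⟩
      obtain ⟨v, hv⟩ : ∃ v, v = y - y1 := ⟨_, rfl⟩
      have hx : x = x1 + u := by rw [hu]; ring
      have hy : y = y1 + v := by rw [hv]; ring
      have h1' : u ^ 2 + v ^ 2 = r ^ 2 := by rw [← h1, hu, hv]
      have h2' : (u - p) ^ 2 + (v - q) ^ 2 = s ^ 2 := by rw [← h2, hu, hv]; ring
      have hdot : u * p + v * q = r ^ 2 := by
        have : D = r ^ 2 + s ^ 2 := hDdef
        nlinarith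
      have hcr : (v * p - u * q) ^ 2 = (r * s) ^ 2 := by
        have e1 : (v * p - u * q) ^ 2 = (u ^ 2 + v ^ 2) * (p ^ 2 + q ^ 2) - (u * p + v * q) ^ 2 := by
          ring
        rw [e1, h1', hpq, hdot, hDdef]; ring
      have hcr' : v * p - u * q = r * s ∨ v * p - u * q = -(r * s) := by
        exact sq_eq_sq_iff_eq_or_eq_neg.1 hcr
      have hu2 : u * D = (u * p + v * q) * p - (v * p - u * q) * q := by rw [← hpq]; ring
      have hv2 : v * D = (u * p + v * q) * q + (v * p - u * q) * p := by rw [← hpq]; ring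
      rcases hcr' with h3 | h3
      · left
        constructor
        · rw [hx]; congr 1; rw [eq_div_iff hD0, hu2, hdot, h3]
        · rw [hy]; congr 1; rw [eq_div_iff hD0, hv2, hdot, h3]
      · right
        constructor
        · rw [hx]; congr 1; rw [eq_div_iff hD0, hu2, hdot, h3]; ring
        · rw [hy]; congr 1; rw [eq_div_iff hD0, hv2, hdot, h3]; ring
    · rintro (⟨h1, h2⟩ | ⟨h1, h2⟩)
      · rw [h1, h2]
        constructor
        · have : (x1 + (r ^ 2 * p - r * s * q) / D - x1) ^ 2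
              + (y1 + (r ^ 2 * q + r * s * p) / D - y1) ^ 2
              = r ^ 2 * (r ^ 2 + s ^ 2) * (p ^ 2 + q ^ 2) / D ^ 2 := by
            field_simp; ring
          rw [this, hpq, ← hDdef]; field_simp
        · have : (x1 + (r ^ 2 * p - r * s * q) / D - (x1 + p)) ^ 2
              + (y1 + (r ^ 2 * q + r * s * p) / D - (y1 + q)) ^ 2
              = ((r ^ 2 - D) ^ 2 + (r * s) ^ 2) * (p ^ 2 + q ^ 2) / D ^ 2 := by
            field_simp; ring
          rw [this, hpq]
          have h5 : (r ^ 2 - D) ^ 2 + (r * s) ^ 2 = s ^ 2 * D := by rw [hDdef]; ring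
          rw [h5]; field_simp
      · rw [h1, h2]
        constructor
        · have : (x1 + (r ^ 2 * p + r * s * q) / D - x1) ^ 2
              + (y1 + (r ^ 2 * q - r * s * p) / D - y1) ^ 2
              = r ^ 2 * (r ^ 2 + s ^ 2) * (p ^ 2 + q ^ 2) / D ^ 2 := by
            field_simp; ring
          rw [this, hpq, ← hDdef]; field_simp
        · have : (x1 + (r ^ 2 * p + r * s * q) / D - (x1 + p)) ^ 2
              + (y1 + (r ^ 2 * q - r * s * p) / D - (y1 + q)) ^ 2
              = ((r ^ 2 - D) ^ 2 + (r * s) ^ 2) * (p ^ 2 + q ^ 2) / D ^ 2 := by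
            field_simp; ring
          rw [this, hpq]
          have h5 : (r ^ 2 - D) ^ 2 + (r * s) ^ 2 = s ^ 2 * D := by rw [hDdef]; ring
          rw [h5]; field_simp
  refine ⟨?_, ?_⟩
  · rw [hset]
    apply Set.ncard_pair
    intro heq
    have h1 := congrArg Complex.re heq
    have h2 := congrArg Complex.im heq
    simp only at h1 h2
    have h3 : (r ^ 2 * p - r * s * q) / D = (r ^ 2 * p + r * s * q) / D := by linarith
    have h4 : (r ^ 2 * q + r * s * p) / D = (r ^ 2 * q - r * s * p) / D := by linarith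
    rw [div_left_inj' hD0] at h3 h4
    have h5 : r * s * q = 0 := by linarith
    have h6 : r * s * p = 0 := by linarith
    have hrs : r * s ≠ 0 := by positivity
    have hq0 : q = 0 := by
      rcases mul_eq_zero.1 h5 with h | h
      · exact absurd h hrs
      · exact h
    have hp0 : p = 0 := by
      rcases mul_eq_zero.1 h6 with h | h
      · exact absurd h hrs
      · exact h
    rw [hp0, hq0] at hpq
    apply hD0
    rw [← hpq]; ring
  · intro z hz
    rw [Set.mem_inter_iff, mem_pts hK.le, mem_pts hL.le] at hz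
    obtain ⟨h1, h2⟩ := hz
    rw [re_conj]
    simp only at h1 h2 ⊢
    nlinarith [h, hDdef]

theorem disj_of_disD (K L : Ci) (h : DisD K L) : Disjoint (pts K) (pts L) := by
  rw [Set.disjoint_left]
  intro z hz hz'
  unfold pts at hz hz'
  rw [mem_sphere_iff_norm] at hz hz'
  rcases h with h | h
  · have : ‖K.1 - L.1‖ ≤ ‖z - K.1‖ + ‖z - L.1‖ := by
      have e : K.1 - L.1 = (z - L.1) - (z - K.1) := by ring
      rw [e, add_comm]
      exact norm_sub_le _ _
    rw [hz, hz'] at this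
    linarith
  · have : |‖z - L.1‖ - ‖z - K.1‖| ≤ ‖(z - L.1) - (z - K.1)‖ := abs_norm_sub_norm_le _ _
    have e : (z - L.1) - (z - K.1) = K.1 - L.1 := by ring
    rw [e, hz, hz', abs_sub_comm] at this
    linarith

/-- **piece O** -/
theorem s_O : S_O := fun K L hK hL => ⟨ort_of_ortD K L hK hL, disj_of_disD K L⟩

theorem ort_of_mem {A : Finset Ci} (hA : Arr A) {K L : Ci} (hK : K ∈ A) (hL : L ∈ A) (h : K ≠ L)
    {z : ℂ} (h1 : z ∈ pts K) (h2 : z ∈ pts L) : Ort K L := by
  rcases hA.2 K hK L hL h with hd | ho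
  · exact absurd h2 (Set.disjoint_left.1 hd h1)
  · exact ho

/-- **piece N** -/
theorem s_N : S_N := by
  intro A hA K hK L hL M hM hKL hKM hLM z hzK hzL hzM
  have o1 := (ort_of_mem hA hK hL hKL hzK hzL).2 z ⟨hzK, hzL⟩
  have o2 := (ort_of_mem hA hK hM hKM hzK hzM).2 z ⟨hzK, hzM⟩
  have o3 := (ort_of_mem hA hL hM hLM hzL hzM).2 z ⟨hzL, hzM⟩
  have rK := hA.1 K hK
  have rL := hA.1 L hL
  have rM := hA.1 M hM
  rw [re_conj] at o1 o2 o3
  rw [mem_pts rK.le] at hzK
  rw [mem_pts rL.le] at hzL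
  rw [mem_pts rM.le] at hzM
  generalize z.re - K.1.re = a1 at *
  generalize z.im - K.1.im = a2 at *
  generalize z.re - L.1.re = b1 at *
  generalize z.im - L.1.im = b2 at *
  generalize z.re - M.1.re = c1 at *
  generalize z.im - M.1.im = c2 at *
  have e1 : (a1 * b2 - a2 * b1) * (a1 * c2 - a2 * c1) = 0 := by
    have : (a1 * b2 - a2 * b1) * (a1 * c2 - a2 * c1)
        = (b1 * c1 + b2 * c2) * (a1 ^ 2 + a2 ^ 2) - (a1 * b1 + a2 * b2) * (a1 * c1 + a2 * c2) := by
      ring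
    rw [this, o3, o1]; ring
  have e2 : (a1 * b2 - a2 * b1) ^ 2 = K.2 ^ 2 * L.2 ^ 2 := by
    have : (a1 * b2 - a2 * b1) ^ 2
        = (a1 ^ 2 + a2 ^ 2) * (b1 ^ 2 + b2 ^ 2) - (a1 * b1 + a2 * b2) ^ 2 := by ring
    rw [this, hzK, hzL, o1]; ring
  have e3 : (a1 * c2 - a2 * c1) ^ 2 = K.2 ^ 2 * M.2 ^ 2 := by
    have : (a1 * c2 - a2 * c1) ^ 2
        = (a1 ^ 2 + a2 ^ 2) * (c1 ^ 2 + c2 ^ 2) - (a1 * c1 + a2 * c2) ^ 2 := by ring
    rw [this, hzK, hzM, o2]; ring
  rcases mul_eq_zero.1 e1 with h | h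
  · rw [h] at e2
    have : 0 < K.2 ^ 2 * L.2 ^ 2 := by positivity
    linarith [this, e2]
  · rw [h] at e3
    have : 0 < K.2 ^ 2 * M.2 ^ 2 := by positivity
    linarith [this, e3]

/-- **piece P** -/
theorem s_P : S_P := by
  classical
  intro A E hA hE
  have hfin : ∀ e ∈ E, (pts e.1 ∩ pts e.2).Finite := by
    intro e he
    have h2 := (hE e he).2.2.2.1.1
    apply Set.finite_of_ncard_ne_zero
    rw [h2]; norm_num
  let T : Ci × Ci → Finset ℂ := fun e =>
    if h : (pts e.1 ∩ pts e.2).Finite then h.toFinset else ∅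
  have hT : ∀ e ∈ E, ∀ z, z ∈ T e ↔ z ∈ pts e.1 ∧ z ∈ pts e.2 := by
    intro e he z
    simp only [T, dif_pos (hfin e he), Set.Finite.mem_toFinset, Set.mem_inter_iff]
  have hTc : ∀ e ∈ E, (T e).card = 2 := by
    intro e he
    have h2 := (hE e he).2.2.2.1.1
    rw [Set.ncard_eq_toFinset_card _ (hfin e he)] at h2
    simp only [T, dif_pos (hfin e he)]
    exact h2
  refine ⟨E.biUnion T, ?_, ?_⟩
  · intro z hz
    rw [Finset.mem_coe, Finset.mem_biUnion] at hz
    obtain ⟨e, he, hz⟩ := hz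
    rw [hT e he] at hz
    obtain ⟨h1, h2, h3, -, -⟩ := hE e he
    exact ⟨e.1, h1, e.2, h2, h3, hz.1, hz.2⟩
  · rw [Finset.card_biUnion, Finset.sum_congr rfl hTc]
    · simp [mul_comm]
    · intro e he f hf hef
      rw [Function.onFun, Finset.disjoint_left]
      intro z hz hz'
      rw [hT e he] at hz
      rw [hT f hf] at hz'
      obtain ⟨h1, h2, h3, h4, h5⟩ := hE e he
      obtain ⟨g1, g2, g3, g4, g5⟩ := hE f hf
      -- f.1 is one of e.1, e.2
      have k1 : f.1 = e.1 ∨ f.1 = e.2 := by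
        by_contra hcon
        push Not at hcon
        exact s_N A hA e.1 h1 e.2 h2 f.1 g1 h3 (Ne.symm hcon.1) (Ne.symm hcon.2) z hz.1 hz.2 hz'.1
      have k2 : f.2 = e.1 ∨ f.2 = e.2 := by
        by_contra hcon
        push Not at hcon
        exact s_N A hA e.1 h1 e.2 h2 f.2 g2 h3 (Ne.symm hcon.1) (Ne.symm hcon.2) z hz.1 hz.2 hz'.2
      rcases k1 with k1 | k1 <;> rcases k2 with k2 | k2
      · exact g3 (k1.trans k2.symm)
      · exact hef (Prod.ext k1.symm k2.symm)
      · apply h5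
        have : (e.2, e.1) = f := Prod.ext k1.symm k2.symm
        rw [this]; exact hf
      · exact g3 (k1.trans k2.symm)

end Pool.Agent.R109.OC.ONP
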